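import Pool.Agent.Lib.TG9_h65.GaussRank
import Pool.Agent.Lib.TG9_h22.KrB

/-!
# TANK G, track BC9: exchange of residually independent elements, count of the defects
-/

set_option autoImplicit false

namespace Pool.Agent.TG9

open Pool.Agent.TG (Ov)
open Pool.Agent.TGCh (rk cl)
open Pool.Agent.TG9h22 (RInd valg rind_iff trdeg_adjoin_le card_le_of_algInd)
open MvPolynomial (aeval)

universe u

section Exch

variable {k K : Type u} [Field k] [Field K] [Algebra k K] {V : ValuationSubring K}

/-- Among generators one finds as many residually independent elements as there are among the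
fractions whose denominators have value one. -/
theorem exists_rind_div (hV : Ov k V) {E : Set K} (hE : ∀ x ∈ E, x ∈ V) {m : ℕ} {y : Fin m → K}
    (hy : ∀ j, ∃ a ∈ Algebra.adjoin k E, ∃ b ∈ Algebra.adjoin k E, V.valuation b = 1 ∧
      y j = a / b) (hind : RInd k V y) :
    ∃ w : Fin m → K, (∀ i, w i ∈ E) ∧ RInd k V w := by
  classical
  let _ := valg hV
  have hEV : ∀ a ∈ Algebra.adjoin k E, a ∈ V := by
    intro a ha
    induction ha using Algebra.adjoin_induction with
    | mem x hx => exact hE x hx
    | algebraMap c => exact hV c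
    | add a b _ _ h1 h2 => exact V.add_mem _ _ h1 h2
    | mul a b _ _ h1 h2 => exact V.mul_mem _ _ h1 h2
  choose a ha b hb hb1 hyab using hy
  have hyV : ∀ j, y j ∈ V := by
    intro j
    rw [← V.valuation_le_one_iff, hyab j, map_div₀, hb1 j, div_one, V.valuation_le_one_iff]
    exact hEV _ (ha j)
  let y' : Fin m → V := fun j => ⟨y j, hyV j⟩
  have h1 : AlgebraicIndependent k (fun j => IsLocalRing.residue V (y' j)) :=
    (rind_iff hV y').1 hind
  let S : Set (IsLocalRing.ResidueField V) :=
    {z | ∃ x : V, (x : K) ∈ E ∧ z = IsLocalRing.residue V x}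
  have h3 : ∀ a ∈ Algebra.adjoin k E, ∀ ha : a ∈ V,
      IsLocalRing.residue V ⟨a, ha⟩ ∈ IntermediateField.adjoin k S := by
    intro a ha
    induction ha using Algebra.adjoin_induction with
    | mem x hx =>
      intro ha
      exact IntermediateField.subset_adjoin _ _ ⟨⟨x, ha⟩, hx, rfl⟩
    | algebraMap c =>
      intro ha
      exact (IntermediateField.adjoin k S).algebraMap_mem c
    | add a b ha hb h1 h2 =>
      intro hab
      have : (⟨a + b, hab⟩ : V) = ⟨a, hEV a ha⟩ + ⟨b, hEV b hb⟩ := rfl
      rw [this, map_add]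
      exact add_mem (h1 _) (h2 _)
    | mul a b ha hb h1 h2 =>
      intro hab
      have : (⟨a * b, hab⟩ : V) = ⟨a, hEV a ha⟩ * ⟨b, hEV b hb⟩ := rfl
      rw [this, map_mul]
      exact mul_mem (h1 _) (h2 _)
  have h2 : ∀ j, IsLocalRing.residue V (y' j) ∈ IntermediateField.adjoin k S := by
    intro j
    have hb0 : b j ≠ 0 := by
      intro h
      have := hb1 j
      rw [h, map_zero] at this
      exact zero_ne_one this
    have h4 : y' j * ⟨b j, hEV _ (hb j)⟩ = ⟨a j, hEV _ (ha j)⟩ := by
      apply Subtype.ext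
      change y j * b j = a j
      rw [hyab j, div_mul_cancel₀ _ hb0]
    have h5 := congrArg (IsLocalRing.residue V) h4
    rw [map_mul] at h5
    have h6 : IsLocalRing.residue V ⟨b j, hEV _ (hb j)⟩ ≠ 0 := by
      rw [Ne, IsLocalRing.residue_eq_zero_iff, IsLocalRing.mem_maximalIdeal, mem_nonunits_iff,
        not_not]
      exact (V.valuation_eq_one_iff ⟨b j, hEV _ (hb j)⟩).2 (hb1 j)
    rw [eq_div_of_mul_eq h6 h5]
    exact div_mem (h3 _ (ha j) _) (h3 _ (hb j) _)
  rcases Nat.eq_zero_or_pos m with rfl | hm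
  · exact ⟨Fin.elim0, fun i => i.elim0, by
      have : (Fin.elim0 : Fin 0 → K) = y := funext fun i => i.elim0
      rw [this]
      exact hind⟩
  obtain ⟨q, x, hx, hxi, hq⟩ : ∃ (q : ℕ) (x : Fin q → IsLocalRing.ResidueField V),
      (∀ i, x i ∈ S) ∧ AlgebraicIndependent k x ∧ m ≤ q := by
    by_contra hcon
    push Not at hcon
    have h3 : Algebra.trdeg k (IntermediateField.adjoin k S) ≤ ((m - 1 : ℕ) : Cardinal.{u}) :=
      trdeg_adjoin_le S (m - 1) fun q x hx hxi => by
        have := hcon q x hx hxi
        omega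
    have h4 := card_le_of_algInd h3 h1 h2
    rw [Fintype.card_fin] at h4
    omega
  choose z hz hzx using hx
  refine ⟨fun i => (z (Fin.castLE hq i) : K), fun i => hz _, ?_⟩
  rw [rind_iff hV (fun i => z (Fin.castLE hq i))]
  have h3 : (fun i => IsLocalRing.residue V (z (Fin.castLE hq i))) = x ∘ Fin.castLE hq :=
    funext fun i => (hzx _).symm
  rw [h3]
  exact hxi.comp _ (Fin.castLE_injective hq)

end Exch

section Closed

variable {k₁ k : Type u} [Field k₁] [Field k] [Algebra k₁ k]

theorem cl_clF (Y : Set k) : cl k₁ ((clF k₁ Y : IntermediateField k₁ k) : Set k) = cl k₁ Y :=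
  Pool.Agent.TGCh.cl_cl Y

instance clF_isAlgClosed [IsAlgClosed k] (Y : Set k) : IsAlgClosed (clF k₁ Y) := by
  refine IsAlgClosed.of_exists_root _ fun p hp hirr => ?_
  obtain ⟨x, hx⟩ := IsAlgClosed.exists_aeval_eq_zero k p
    (Polynomial.degree_pos_of_irreducible hirr).ne'
  have hxcl : x ∈ cl k₁ Y := by
    have h1 : x ∈ cl k₁ ((clF k₁ Y : IntermediateField k₁ k) : Set k) := by
      rw [Pool.Agent.TGCh.mem_cl_iff]
      have hle : ∀ b : clF k₁ Y, (b : k) ∈ Algebra.adjoin k₁
          ((clF k₁ Y : IntermediateField k₁ k) : Set k) := fun b => Algebra.subset_adjoin b.2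
      let φ : clF k₁ Y →+* Algebra.adjoin k₁ ((clF k₁ Y : IntermediateField k₁ k) : Set k) :=
        { toFun := fun b => ⟨b, hle b⟩
          map_one' := rfl
          map_mul' := fun _ _ => rfl
          map_zero' := rfl
          map_add' := fun _ _ => rfl }
      refine ⟨p.map φ, ?_, ?_⟩
      · intro h0
        rw [Polynomial.map_eq_zero_iff φ.injective] at h0
        exact hirr.ne_zero h0
      · rw [Polynomial.aeval_def, Polynomial.eval₂_map]
        exact hx
    rwa [cl_clF] at h1
  refine ⟨⟨x, hxcl⟩, ?_⟩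
  apply Subtype.val_injective
  rw [ZeroMemClass.coe_zero, ← hx, Polynomial.aeval_def]
  have := Polynomial.hom_eval₂ p (RingHom.id (clF k₁ Y)) (algebraMap (clF k₁ Y) k) ⟨x, hxcl⟩
  rw [RingHom.comp_id] at this
  exact this

/-- The rank in a bigger field. -/
theorem rk_le_map {K : Type u} [Field K] [Algebra k K] [Algebra k₁ K] [IsScalarTower k₁ k K]
    (Y : Set k) : rk k₁ Y ≤ rk k₁ (algebraMap k K '' Y) := by
  obtain ⟨I, hI⟩ := (AlgebraicIndependent.matroid k₁ k).exists_isBasis Y (Set.subset_univ _)
  have h1 : rk k₁ Y = I.encard := hI.encard_eq_eRk.symm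
  rw [h1]
  have h2 : AlgebraicIndependent k₁ (fun x : I => (x : k)) := hI.indep
  have h3 : AlgebraicIndependent k₁ (fun x : I => algebraMap k K (x : k)) :=
    h2.map' (f := IsScalarTower.toAlgHom k₁ k K) (algebraMap k K).injective
  have h4 := Pool.Agent.TGCh.card_le_rk (X := algebraMap k K '' Y) h3
    (fun i => ⟨i, hI.subset i.2, rfl⟩)
  exact h4

/-- The fields `L j = κ(u i l : i < j)`. -/
noncomputable def fld {κ : Type u} [Field κ] [Algebra κ k] {n s : ℕ} (u : Fin (n + 1) → Fin s → k)
    (j : ℕ) : IntermediateField κ k :=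
  IntermediateField.adjoin κ {x | ∃ i : Fin (n + 1), (i : ℕ) < j ∧ ∃ l, x = u i l}

/-- THE COUNT OF THE DEFECTS. -/
theorem defect_count (Y : Set k) {n s N : ℕ} (hY : rk k₁ Y ≤ N) (u : Fin (n + 1) → Fin s → k)
    (hu : AlgebraicIndependent k₁ (fun p : Fin (n + 1) × Fin s => u p.1 p.2)) :
    (n + 1) * s ≤ N + ∑ i : Fin (n + 1), Module.finrank (fld (κ := clF k₁ Y) u i)
      (Submodule.span (fld (κ := clF k₁ Y) u i) (Set.range (u i))) := by
  classical
  set κ := clF k₁ Y with hκ
  let S : ℕ → Set k := fun j => {x | ∃ i : Fin (n + 1), (i : ℕ) < j ∧ ∃ l, x = u i l}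
  have hfld : ∀ j : ℕ, ∀ x ∈ fld (κ := κ) u j, x ∈ cl k₁ (Y ∪ S j) := by
    intro j
    let F : IntermediateField κ k :=
      { carrier := cl k₁ (Y ∪ S j)
        mul_mem' := Pool.Agent.TGCh.mul_mem_cl
        add_mem' := Pool.Agent.TGCh.add_mem_cl
        algebraMap_mem' := fun r => Pool.Agent.TGCh.cl_mono Set.subset_union_left r.2
        inv_mem' := fun _ h => Pool.Agent.TGCh.inv_mem_cl h }
    have h1 : fld (κ := κ) u j ≤ F := by
      refine IntermediateField.adjoin_le_iff.2 fun x hx => ?_
      exact Pool.Agent.TGCh.subset_cl _ (Or.inr hx)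
    exact h1
  have key : ∀ j : ℕ, j ≤ n + 1 → rk k₁ (Y ∪ S j) ≤ N + ((∑ i : Fin (n + 1), if (i : ℕ) < j then
      Module.finrank (fld (κ := κ) u i) (Submodule.span (fld (κ := κ) u i) (Set.range (u i)))
      else 0 : ℕ) : ℕ∞) := by
    intro j
    induction j with
    | zero =>
      intro _
      have h1 : S 0 = ∅ := by
        ext x
        simp [S]
      rw [h1, Set.union_empty]
      exact hY.trans le_self_add
    | succ j ih =>
      intro hj
      let i' : Fin (n + 1) := ⟨j, by omega⟩
      obtain ⟨b, hb1, hb2, hb3⟩ := exists_linearIndependent (fld (κ := κ) u j) (Set.range (u i'))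
      have hbfin : b.Finite := (Set.finite_range (u i')).subset hb1
      have := hbfin.fintype
      have hcard : b.encard = Module.finrank (fld (κ := κ) u j)
          (Submodule.span (fld (κ := κ) u j) (Set.range (u i'))) := by
        rw [← hb2, ← Subtype.range_coe (s := b), finrank_span_eq_card hb3, Subtype.range_coe,
          Set.encard_eq_coe_toFinset_card, Set.toFinset_card]
      have h2 : Y ∪ S (j + 1) ⊆ cl k₁ ((Y ∪ S j) ∪ b) := by
        rintro x (hx | ⟨i, hi, l, rfl⟩)
        · exact Pool.Agent.TGCh.subset_cl _ (Or.inl (Or.inl hx))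
        · rcases Nat.lt_succ_iff_lt_or_eq.1 hi with h | h
          · exact Pool.Agent.TGCh.subset_cl _ (Or.inl (Or.inr ⟨i, h, l, rfl⟩))
          · have hii : i = i' := Fin.ext h
            rw [hii]
            have h3 : u i' l ∈ Submodule.span (fld (κ := κ) u j) b := by
              rw [hb2]
              exact Submodule.subset_span ⟨l, rfl⟩
            generalize u i' l = x at h3
            induction h3 using Submodule.span_induction with
            | mem y hy => exact Pool.Agent.TGCh.subset_cl _ (Or.inr hy)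
            | zero => exact Pool.Agent.TGCh.zero_mem_cl
            | add y z _ _ hy hz => exact Pool.Agent.TGCh.add_mem_cl hy hz
            | smul a y _ hy =>
              change (a : k) * y ∈ _
              refine Pool.Agent.TGCh.mul_mem_cl ?_ hy
              exact Pool.Agent.TGCh.cl_mono Set.subset_union_left (hfld j a a.2)
      have h4 : rk k₁ (Y ∪ S (j + 1)) ≤ rk k₁ (Y ∪ S j) + b.encard :=
        (Pool.Agent.TGCh.rk_le_of_subset_cl h2).trans (Pool.Agent.TGCh.rk_union_le' _ _)
      have h5 : (∑ i : Fin (n + 1), if (i : ℕ) < j + 1 then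
          Module.finrank (fld (κ := κ) u i) (Submodule.span (fld (κ := κ) u i) (Set.range (u i)))
          else 0 : ℕ) = (∑ i : Fin (n + 1), if (i : ℕ) < j then
          Module.finrank (fld (κ := κ) u i) (Submodule.span (fld (κ := κ) u i) (Set.range (u i)))
          else 0 : ℕ) + Module.finrank (fld (κ := κ) u j)
            (Submodule.span (fld (κ := κ) u j) (Set.range (u i'))) := by
        rw [← Finset.add_sum_erase _ _ (Finset.mem_univ i'),
          ← Finset.add_sum_erase _ (fun i : Fin (n + 1) => if (i : ℕ) < j then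
            Module.finrank (fld (κ := κ) u i) (Submodule.span (fld (κ := κ) u i) (Set.range (u i)))
            else 0) (Finset.mem_univ i')]
        have h6 : ∑ x ∈ Finset.univ.erase i', (if (x : ℕ) < j + 1 then
            Module.finrank (fld (κ := κ) u x) (Submodule.span (fld (κ := κ) u x) (Set.range (u x)))
            else 0) = ∑ x ∈ Finset.univ.erase i', (if (x : ℕ) < j then
            Module.finrank (fld (κ := κ) u x) (Submodule.span (fld (κ := κ) u x) (Set.range (u x)))
            else 0) := by
          refine Finset.sum_congr rfl fun x hx => ?_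
          have h3 : (x : ℕ) ≠ j := fun h => (Finset.mem_erase.1 hx).1 (Fin.ext h)
          have h4 : ((x : ℕ) < j + 1) ↔ ((x : ℕ) < j) := by omega
          simp only [h4]
        rw [h6]
        simp only [i', Nat.lt_succ_self, if_true, lt_irrefl, if_false]
        omega
      rw [h5, Nat.cast_add, ← add_assoc]
      refine h4.trans (add_le_add (ih (by omega)) hcard.le)
  have h1 := key (n + 1) le_rfl
  have h2 := Pool.Agent.TGCh.card_le_rk (X := Y ∪ S (n + 1)) hu
    (fun p => Or.inr ⟨p.1, p.1.2, p.2, rfl⟩)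
  have h3 := h2.trans h1
  rw [ENat.card_eq_coe_fintype_card, Fintype.card_prod, Fintype.card_fin, Fintype.card_fin] at h3
  have h4 : ∀ i : Fin (n + 1), (i : ℕ) < n + 1 := fun i => i.2
  simp only [h4, if_true] at h3
  exact_mod_cast h3

end Closed

end Pool.Agent.TG9
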