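import Pool.Agent.Lib.TG9_h65.GaussRes

/-!
# TANK G, track BC9: the Gauss property from ranks
-/

set_option autoImplicit false

namespace Pool.Agent.TG9

open Pool.Agent.TG (Ov)
open Pool.Agent.TGCh (rk cl)
open MvPolynomial (aeval)

universe u

/-- The relative algebraic closure of `κ(X)` in `K`. -/
noncomputable def clF (κ : Type u) {K : Type u} [Field κ] [Field K] [Algebra κ K] (X : Set K) :
    IntermediateField κ K where
  carrier := cl κ X
  mul_mem' := Pool.Agent.TGCh.mul_mem_cl
  add_mem' := Pool.Agent.TGCh.add_mem_cl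
  algebraMap_mem' := fun r => by
    rw [Pool.Agent.TGCh.mem_cl_iff]
    exact isAlgebraic_algebraMap (algebraMap κ (Algebra.adjoin κ X) r)
  inv_mem' := fun _ h => Pool.Agent.TGCh.inv_mem_cl h

theorem mem_clF {κ K : Type u} [Field κ] [Field K] [Algebra κ K] {X : Set K} {a : K} :
    a ∈ clF κ X ↔ a ∈ cl κ X := Iff.rfl

variable {κ k K : Type u} [Field κ] [Field k] [Field K] [Algebra κ k] [Algebra k K] [Algebra κ K]
  [IsScalarTower κ k K]

theorem eval_option {m : ℕ} (w : Fin m → K) (y : K) (Q : MvPolynomial (Option (Fin m)) κ) :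
    (MvPolynomial.optionEquivLeft κ (Fin m) Q).eval₂
      (aeval w : MvPolynomial (Fin m) κ →ₐ[κ] K).toRingHom y
      = aeval (fun o : Option (Fin m) => o.elim y w) Q := by
  induction Q using MvPolynomial.induction_on with
  | C a =>
    rw [MvPolynomial.optionEquivLeft_C, Polynomial.eval₂_C, MvPolynomial.aeval_C]
    exact MvPolynomial.aeval_C w a
  | add p q hp hq => rw [map_add, Polynomial.eval₂_add, hp, hq, map_add]
  | mul_X p i hp =>
    rw [map_mul, Polynomial.eval₂_mul, hp, map_mul, MvPolynomial.aeval_X]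
    congr 1
    rcases i with _ | i
    · rw [MvPolynomial.optionEquivLeft_X_none, Polynomial.eval₂_X]
      rfl
    · rw [MvPolynomial.optionEquivLeft_X_some, Polynomial.eval₂_C]
      exact MvPolynomial.aeval_X w i

theorem ga_of_rank [IsAlgClosed κ] {v : ValuationSubring K} (hv : Ov k v) {m : ℕ} (w : Fin m → K)
    (hw : ∀ P : MvPolynomial (Fin m) k, P ≠ 0 → v.valuation (aeval w P) = 1)
    {X : Set K} (hX : X.encard ≤ m + 1) (hwX : ∀ i, w i ∈ cl κ X) {π : K} (hπX : π ∈ cl κ X)
    (hπ0 : π ≠ 0) (hπ1 : v.valuation π < 1) :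
    GA κ k v.valuation (clF κ X).toSubalgebra.toSubmodule := by
  classical
  refine ga_of_alg hv w hw (clF κ X) fun y hyX hyv => ?_
  by_contra hcon
  push Not at hcon
  have hκ : Ov κ v := fun c => by
    rw [IsScalarTower.algebraMap_apply κ k K]
    exact hv _
  have hwκ : ∀ P : MvPolynomial (Fin m) κ, P ≠ 0 → v.valuation (aeval w P) = 1 := by
    intro P hP
    have h1 := hw (MvPolynomial.map (algebraMap κ k) P) (by
      intro h
      apply hP
      apply MvPolynomial.map_injective _ (algebraMap κ k).injective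
      rw [h, map_zero])
    rwa [MvPolynomial.aeval_map_algebraMap] at h1
  have hwle : ∀ P : MvPolynomial (Fin m) κ, v.valuation (aeval w P) ≤ 1 := by
    intro P
    by_cases hP : P = 0
    · rw [hP, map_zero, map_zero]; exact zero_le
    · exact (hwκ P hP).le
  have hone : ∀ P : Polynomial (MvPolynomial (Fin m) κ), P ≠ 0 → v.valuation
      (P.eval₂ (aeval w : MvPolynomial (Fin m) κ →ₐ[κ] K).toRingHom y) = 1 := by
    intro P hP
    refine le_antisymm ?_ (not_lt.1 fun h => absurd h (not_lt.2 (hcon P hP)))
    rw [Polynomial.eval₂_eq_sum_range]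
    refine v.valuation.map_sum_le fun j _ => ?_
    rw [map_mul, map_pow]
    exact mul_le_one' (hwle _) (pow_le_one' hyv _)
  let x' : Option (Fin m) → K := fun o => o.elim y w
  have hx'1 : ∀ Q : MvPolynomial (Option (Fin m)) κ, Q ≠ 0 → v.valuation (aeval x' Q) = 1 := by
    intro Q hQ
    have h1 := hone (MvPolynomial.optionEquivLeft κ (Fin m) Q) (by
      intro h
      apply hQ
      apply (MvPolynomial.optionEquivLeft κ (Fin m)).injective
      rw [h, map_zero])
    rwa [eval_option] at h1
  have hx'ind : AlgebraicIndependent κ x' := by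
    rw [algebraicIndependent_iff]
    intro Q hQ
    by_contra hQ0
    have := hx'1 Q hQ0
    rw [hQ, map_zero] at this
    exact zero_ne_one this
  have hall : AlgebraicIndependent κ (fun o : Option (Option (Fin m)) => o.elim π x') := by
    rw [hx'ind.option_iff_transcendental]
    refine Pool.Agent.TGCh.transcendental_of_units (V := v) ?_ Subtype.val_injective hπ0 hπ1
    rintro ⟨r, hr⟩ hr0
    have hr' := hr
    rw [Algebra.adjoin_range_eq_range_aeval] at hr'
    obtain ⟨Q, hQ⟩ := hr'
    change aeval x' Q = r at hQ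
    change v.valuation r = 1
    rw [← hQ]
    refine hx'1 Q ?_
    rintro rfl
    apply hr0
    change r = 0
    rw [← hQ, map_zero]
  have h1 := Pool.Agent.TGCh.card_le_rk (X := cl κ X) hall (by
    rintro (_ | _ | i)
    · exact hπX
    · exact hyX
    · exact hwX i)
  rw [Pool.Agent.TGCh.rk_cl] at h1
  have h2 := h1.trans ((Pool.Agent.TGCh.rk_le_encard X).trans hX)
  rw [ENat.card_eq_coe_fintype_card, Fintype.card_option, Fintype.card_option, Fintype.card_fin]
    at h2
  have h3 : m + 1 + 1 ≤ m + 1 := by exact_mod_cast h2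
  omega

end Pool.Agent.TG9
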