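import Pool.Agent.Lib.TG9_h65.Peel
import Pool.Agent.Lib.TG_h96.Rank
import Pool.Agent.Lib.TG.ZDim
import Pool.Agent.Lib.TG9_h22.Abh

/-!
# TANK G, track BC9: the Gauss property from the residues

`κ` algebraically closed, `κ ⊆ k ⊆ K`, `v` a valuation ring of `K` over `k`, `w` a family of
elements whose residues are algebraically independent over `k`, `F` a field between `κ` and `K`
such that the residues of the elements of `F` are algebraic over `κ(w)`. Then
`v (∑ c i * x i) = max v (x i)` for `x i ∈ F` and `c i ∈ k` linearly independent over `κ`.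
-/

set_option autoImplicit false

namespace Pool.Agent.TG9

open Pool.Agent.TG (Ov)
open MvPolynomial (aeval)

universe u

section Val

variable {K : Type u} [Field K]

theorem lt_one_of_le {V W : ValuationSubring K} (h : W ≤ V) {x : K} (hx : V.valuation x < 1) :
    W.valuation x < 1 := by
  by_cases h0 : x = 0
  · rw [h0, map_zero]; exact zero_lt_one
  by_contra hcon
  rw [not_lt] at hcon
  have h1 : W.valuation x⁻¹ ≤ 1 := by
    rw [map_inv₀]
    exact inv_le_one_of_one_le₀ hcon
  have h2 : x⁻¹ ∈ V := h ((W.valuation_le_one_iff _).1 h1)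
  have h3 := (V.valuation_le_one_iff _).2 h2
  have h4 : V.valuation x * V.valuation x⁻¹ = 1 := by
    rw [← map_mul, mul_inv_cancel₀ h0, map_one]
  have h5 : V.valuation x * V.valuation x⁻¹ < 1 := mul_lt_one_of_lt_of_le hx h3
  rw [h4] at h5
  exact lt_irrefl _ h5

theorem le_one_of_le {V W : ValuationSubring K} (h : W ≤ V) {x : K} (hx : W.valuation x ≤ 1) :
    V.valuation x ≤ 1 := (V.valuation_le_one_iff _).2 (h ((W.valuation_le_one_iff _).1 hx))

theorem eq_one_of_le {V W : ValuationSubring K} (h : W ≤ V) {x : K} (hx : W.valuation x = 1) :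
    V.valuation x = 1 := by
  refine le_antisymm (le_one_of_le h hx.le) ?_
  by_contra hcon
  rw [not_le] at hcon
  have := lt_one_of_le h hcon
  rw [hx] at this
  exact lt_irrefl _ this

theorem val_eq_one_of_sub {W : ValuationSubring K} {x y : K} (h : W.valuation (x - y) < 1)
    (hy : W.valuation y = 1) : W.valuation x = 1 := by
  have h1 : x = y + (x - y) := by ring
  rw [h1, Valuation.map_add_eq_of_lt_left _ (by rw [hy]; exact h), hy]

end Val

variable {κ k K : Type u} [Field κ] [Field k] [Field K] [Algebra κ k] [Algebra k K] [Algebra κ K]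
  [IsScalarTower κ k K]

omit [Algebra κ k] [Algebra k K] [IsScalarTower κ k K] in
/-- An element whose residue is algebraic over the algebraically closed field `κ` has its residue
in `κ`. -/
theorem exists_residue [IsAlgClosed κ] {W : ValuationSubring K} (hW : Ov κ W) {y : K}
    (hy : W.valuation y ≤ 1) (n : ℕ) : ∀ R : Polynomial κ, R.natDegree = n → R ≠ 0 →
      W.valuation (Polynomial.aeval y R) < 1 → ∃ b : κ, W.valuation (y - algebraMap κ K b) < 1 := by
  induction n with
  | zero =>
    intro R hR hR0 h
    rw [Polynomial.eq_C_of_natDegree_eq_zero hR, Polynomial.aeval_C] at h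
    have h1 : R.coeff 0 ≠ 0 := by
      intro h0
      apply hR0
      rw [Polynomial.eq_C_of_natDegree_eq_zero hR, h0, Polynomial.C_0]
    rw [Pool.Agent.TG9h22.val_const hW h1] at h
    exact absurd h (lt_irrefl _)
  | succ n ih =>
    intro R hR hR0 h
    obtain ⟨b, hb⟩ := IsAlgClosed.exists_root R (by
      rw [Polynomial.degree_eq_natDegree hR0, hR]
      exact_mod_cast Nat.succ_ne_zero n)
    obtain ⟨S, hS⟩ := Polynomial.dvd_iff_isRoot.2 hb
    by_cases h1 : W.valuation (y - algebraMap κ K b) < 1
    · exact ⟨b, h1⟩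
    have hS0 : S ≠ 0 := by
      rintro rfl
      rw [mul_zero] at hS
      exact hR0 hS
    refine ih S ?_ hS0 ?_
    · rw [hS, Polynomial.natDegree_mul (Polynomial.X_sub_C_ne_zero b) hS0,
        Polynomial.natDegree_X_sub_C] at hR
      omega
    · rw [hS, map_mul, map_sub, Polynomial.aeval_X, Polynomial.aeval_C, map_mul] at h
      rw [not_lt] at h1
      exact lt_of_le_of_lt (le_mul_of_one_le_left' h1) h

/-- THE GAUSS PROPERTY from the residues. -/
theorem ga_of_alg [IsAlgClosed κ] {v : ValuationSubring K} (hv : Ov k v) {m : ℕ} (w : Fin m → K)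
    (hw : ∀ P : MvPolynomial (Fin m) k, P ≠ 0 → v.valuation (aeval w P) = 1)
    (F : IntermediateField κ K)
    (hB : ∀ y ∈ F, v.valuation y ≤ 1 → ∃ P : Polynomial (MvPolynomial (Fin m) κ), P ≠ 0 ∧
      v.valuation (P.eval₂ (aeval w : MvPolynomial (Fin m) κ →ₐ[κ] K).toRingHom y) < 1) :
    GA κ k v.valuation F.toSubalgebra.toSubmodule := by
  classical
  intro r c x hc hx i
  have hne : (Finset.univ : Finset (Fin r)).Nonempty := ⟨i, Finset.mem_univ _⟩
  obtain ⟨i₀, -, hmax⟩ := Finset.exists_max_image Finset.univ (fun i => v.valuation (x i)) hne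
  refine (hmax i (Finset.mem_univ _)).trans ?_
  by_cases h0 : x i₀ = 0
  · rw [h0, map_zero]; exact zero_le
  have hv0 : v.valuation (x i₀) ≠ 0 := (Valuation.ne_zero_iff _).2 h0
  let y : Fin r → K := fun i => x i / x i₀
  have hyF : ∀ i, y i ∈ F := fun i => F.div_mem (hx i) (hx i₀)
  have hyv : ∀ i, v.valuation (y i) ≤ 1 := by
    intro i
    change v.valuation (x i / x i₀) ≤ 1
    rw [map_div₀]
    exact div_le_one_of_le₀ (hmax i (Finset.mem_univ _)) zero_le
  choose P hP0 hP using fun i => hB (y i) (hyF i) (hyv i)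
  -- the point `a`
  have hH : ∏ i, (P i).leadingCoeff ≠ 0 :=
    Finset.prod_ne_zero_iff.2 fun i _ => Polynomial.leadingCoeff_ne_zero.2 (hP0 i)
  obtain ⟨a, ha⟩ : ∃ a : Fin m → κ, MvPolynomial.eval a (∏ i, (P i).leadingCoeff) ≠ 0 := by
    by_contra hcon
    push Not at hcon
    apply hH
    apply MvPolynomial.funext
    intro a
    rw [hcon a, map_zero]
  rw [map_prod] at ha
  have ha' : ∀ i, MvPolynomial.eval a (P i).leadingCoeff ≠ 0 := fun i =>
    Finset.prod_ne_zero_iff.1 ha i (Finset.mem_univ _)
  -- `w` is algebraically independent over `k`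
  have hwind : AlgebraicIndependent k w := by
    rw [algebraicIndependent_iff]
    intro Q hQ
    by_contra hQ0
    have := hw Q hQ0
    rw [hQ, map_zero] at this
    exact zero_ne_one this
  let A := Algebra.adjoin k (Set.range w)
  have hAv : ∀ b ∈ A, b ∈ v := by
    intro b hb
    change b ∈ Algebra.adjoin k (Set.range w) at hb
    rw [Algebra.adjoin_range_eq_range_aeval] at hb
    obtain ⟨Q, rfl⟩ := hb
    by_cases hQ : Q = 0
    · rw [hQ]
      change aeval w (0 : MvPolynomial (Fin m) k) ∈ v
      rw [map_zero]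
      exact v.zero_mem
    · exact (v.valuation_le_one_iff _).1 (hw Q hQ).le
  let ev : A →+* k := (MvPolynomial.eval (fun j => algebraMap κ k (a j))).comp
    (hwind.aevalEquiv.symm : A ≃+* MvPolynomial (Fin m) k).toRingHom
  have hev : ∀ Q : MvPolynomial (Fin m) k, ∀ h : aeval w Q ∈ A,
      ev ⟨aeval w Q, h⟩ = MvPolynomial.eval (fun j => algebraMap κ k (a j)) Q := by
    intro Q h
    change MvPolynomial.eval (fun j => algebraMap κ k (a j)) (hwind.aevalEquiv.symm _) = _
    congr 1
    rw [AlgEquiv.symm_apply_eq]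
    apply Subtype.ext
    exact (hwind.algebraMap_aevalEquiv Q).symm
  have hmemA : ∀ Q : MvPolynomial (Fin m) k, aeval w Q ∈ A := by
    intro Q
    rw [show A = Algebra.adjoin k (Set.range w) from rfl, Algebra.adjoin_range_eq_range_aeval]
    exact ⟨Q, rfl⟩
  obtain ⟨W, hWv, hAW, hmW⟩ := Pool.Agent.TG.exists_le_of_ideal v A hAv (RingHom.ker ev)
    (RingHom.ker_ne_top ev) (by
      rintro ⟨b, hb⟩ hb1
      have hb' : b ∈ Algebra.adjoin k (Set.range w) := hb
      rw [Algebra.adjoin_range_eq_range_aeval] at hb'
      obtain ⟨Q, hQb⟩ := hb'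
      change aeval w Q = b at hQb
      by_cases hQ : Q = 0
      · rw [RingHom.mem_ker]
        have : (⟨b, hb⟩ : A) = 0 := by
          apply Subtype.ext
          rw [hQ, map_zero] at hQb
          exact hQb.symm
        rw [this, map_zero]
      · have h1 := hw Q hQ
        change v.valuation b < 1 at hb1
        rw [← hQb, h1] at hb1
        exact absurd hb1 (lt_irrefl _))
  have hWk : Ov k W := fun c => hAW _ (A.algebraMap_mem c)
  have hWκ : Ov κ W := fun c => by
    rw [IsScalarTower.algebraMap_apply κ k K]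
    exact hWk _
  -- evaluation modulo the maximal ideal of `W`
  have hmod : ∀ Q : MvPolynomial (Fin m) κ,
      W.valuation (aeval w Q - algebraMap κ K (MvPolynomial.eval a Q)) < 1 := by
    intro Q
    let Q' : MvPolynomial (Fin m) k := MvPolynomial.map (algebraMap κ k) Q
    have h1 : aeval w Q' = aeval w Q := by
      rw [MvPolynomial.aeval_map_algebraMap]
    let R : MvPolynomial (Fin m) k :=
      Q' - MvPolynomial.C (algebraMap κ k (MvPolynomial.eval a Q))
    have h2 : aeval w R = aeval w Q - algebraMap κ K (MvPolynomial.eval a Q) := by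
      change aeval w (Q' - MvPolynomial.C _) = _
      rw [map_sub, h1, MvPolynomial.aeval_C, ← IsScalarTower.algebraMap_apply]
    rw [← h2]
    refine hmW ⟨aeval w R, hmemA R⟩ ?_
    rw [RingHom.mem_ker, hev]
    change MvPolynomial.eval _ (Q' - MvPolynomial.C _) = 0
    rw [map_sub, MvPolynomial.eval_C]
    have h3 : MvPolynomial.eval (fun j => algebraMap κ k (a j)) Q'
        = algebraMap κ k (MvPolynomial.eval a Q) := by
      change MvPolynomial.eval (fun j => algebraMap κ k (a j)) (MvPolynomial.map (algebraMap κ k) Q)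
        = _
      rw [MvPolynomial.eval_map, MvPolynomial.eval₂_comp]
      rfl
    rw [h3, sub_self]
  have hwW : ∀ Q : MvPolynomial (Fin m) κ, W.valuation (aeval w Q) ≤ 1 := by
    intro Q
    have h1 : aeval w Q = (aeval w Q - algebraMap κ K (MvPolynomial.eval a Q))
      + algebraMap κ K (MvPolynomial.eval a Q) := by ring
    rw [h1]
    exact (W.valuation.map_add _ _).trans
      (max_le (hmod Q).le ((W.valuation_le_one_iff _).2 (hWκ _)))
  -- `y i ∈ W`
  have hyW : ∀ i, W.valuation (y i) ≤ 1 := by
    intro i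
    by_contra hcon
    rw [not_le] at hcon
    have hy0 : y i ≠ 0 := by
      intro h
      rw [h, map_zero] at hcon
      exact absurd hcon (not_lt.2 zero_le)
    have hyinv : W.valuation (y i)⁻¹ < 1 := by
      rw [map_inv₀]
      exact inv_lt_one_of_one_lt₀ hcon
    have h1 := lt_one_of_le hWv (hP i)
    set D := (P i).natDegree with hD
    have h2 : (P i).eval₂ (aeval w : MvPolynomial (Fin m) κ →ₐ[κ] K).toRingHom (y i)
        * ((y i)⁻¹) ^ D = aeval w (P i).leadingCoeff
          + ∑ j ∈ Finset.range D, aeval w ((P i).coeff j) * ((y i)⁻¹) ^ (D - j) := by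
      rw [Polynomial.eval₂_eq_sum_range, Finset.sum_range_succ, add_mul, Finset.sum_mul, add_comm]
      congr 1
      · rw [mul_assoc, ← mul_pow, mul_inv_cancel₀ hy0, one_pow, mul_one]
        rfl
      · refine Finset.sum_congr rfl fun j hj => ?_
        have hj' : j < D := Finset.mem_range.1 hj
        rw [mul_assoc]
        congr 1
        have h3 : D = (D - j) + j := by omega
        conv_lhs => rw [h3, pow_add]
        rw [mul_comm (((y i)⁻¹) ^ (D - j)), ← mul_assoc, ← mul_pow, mul_inv_cancel₀ hy0, one_pow,
          one_mul]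
    have h3 : W.valuation (aeval w (P i).leadingCoeff
          + ∑ j ∈ Finset.range D, aeval w ((P i).coeff j) * ((y i)⁻¹) ^ (D - j)) < 1 := by
      rw [← h2, map_mul, map_pow]
      exact mul_lt_one_of_lt_of_le h1 (pow_le_one' hyinv.le _)
    have h4 : W.valuation (∑ j ∈ Finset.range D, aeval w ((P i).coeff j) * ((y i)⁻¹) ^ (D - j))
        < 1 := by
      refine W.valuation.map_sum_lt one_ne_zero fun j hj => ?_
      rw [map_mul, map_pow]
      refine mul_lt_one_of_nonneg_of_lt_one_right (hwW _) zero_le ?_
      exact pow_lt_one₀ zero_le hyinv (by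
        have := Finset.mem_range.1 hj
        omega)
    have h5 : W.valuation (aeval w (P i).leadingCoeff) = 1 := by
      refine val_eq_one_of_sub (hmod _) ?_
      exact Pool.Agent.TG9h22.val_const hWκ (ha' i)
    have h6 : W.valuation (aeval w (P i).leadingCoeff) < 1 := by
      have h7 : aeval w (P i).leadingCoeff = (aeval w (P i).leadingCoeff
          + ∑ j ∈ Finset.range D, aeval w ((P i).coeff j) * ((y i)⁻¹) ^ (D - j))
          - ∑ j ∈ Finset.range D, aeval w ((P i).coeff j) * ((y i)⁻¹) ^ (D - j) := by ring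
      rw [h7]
      exact W.valuation.map_sub_lt h3 h4
    rw [h5] at h6
    exact lt_irrefl _ h6
  -- the residues are in `κ`
  have hb : ∀ i, ∃ b : κ, W.valuation (y i - algebraMap κ K b) < 1 := by
    intro i
    refine exists_residue hWκ (hyW i) _ ((P i).map (MvPolynomial.eval a)) rfl ?_ ?_
    · intro h
      apply ha' i
      have := congrArg (fun p => Polynomial.coeff p (P i).natDegree) h
      simpa [Polynomial.coeff_map] using this
    · have h1 := lt_one_of_le hWv (hP i)
      have h2 : Polynomial.aeval (y i) ((P i).map (MvPolynomial.eval a))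
          = (P i).eval₂ (aeval w : MvPolynomial (Fin m) κ →ₐ[κ] K).toRingHom (y i)
            - ∑ j ∈ Finset.range ((P i).natDegree + 1),
              (aeval w ((P i).coeff j) - algebraMap κ K (MvPolynomial.eval a ((P i).coeff j)))
                * (y i) ^ j := by
        rw [Polynomial.aeval_def, Polynomial.eval₂_map, Polynomial.eval₂_eq_sum_range,
          Polynomial.eval₂_eq_sum_range, ← Finset.sum_sub_distrib]
        refine Finset.sum_congr rfl fun j _ => ?_
        change algebraMap κ K (MvPolynomial.eval a ((P i).coeff j)) * y i ^ j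
          = aeval w ((P i).coeff j) * y i ^ j - _
        ring
      rw [h2]
      refine W.valuation.map_sub_lt h1 (W.valuation.map_sum_lt one_ne_zero fun j _ => ?_)
      rw [map_mul, map_pow]
      exact mul_lt_one_of_lt_of_le (hmod _) (pow_le_one' (hyW i) _)
  choose b hb using hb
  have hyi₀ : y i₀ = 1 := div_self h0
  have hbi₀ : b i₀ ≠ 0 := by
    intro h
    have h1 := hb i₀
    rw [hyi₀, h, map_zero, sub_zero, map_one] at h1
    exact lt_irrefl _ h1
  have hsum : ∑ i, b i • c i ≠ 0 := by
    intro h
    rw [Fintype.linearIndependent_iff] at hc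
    exact hbi₀ (hc b h i₀)
  have h1 : W.valuation (∑ i, algebraMap k K (c i) * y i) = 1 := by
    refine val_eq_one_of_sub (y := algebraMap k K (∑ i, b i • c i)) ?_
      (Pool.Agent.TG9h22.val_const hWk hsum)
    have h2 : ∑ i, algebraMap k K (c i) * y i - algebraMap k K (∑ i, b i • c i)
        = ∑ i, algebraMap k K (c i) * (y i - algebraMap κ K (b i)) := by
      rw [map_sum, ← Finset.sum_sub_distrib]
      refine Finset.sum_congr rfl fun i _ => ?_
      rw [Algebra.smul_def, map_mul, ← IsScalarTower.algebraMap_apply]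
      ring
    rw [h2]
    refine W.valuation.map_sum_lt one_ne_zero fun i _ => ?_
    rw [map_mul]
    exact mul_lt_one_of_nonneg_of_lt_one_right ((W.valuation_le_one_iff _).2 (hWk _)) zero_le
      (hb i)
  have h2 := eq_one_of_le hWv h1
  have h3 : ∑ i, algebraMap k K (c i) * x i = x i₀ * ∑ i, algebraMap k K (c i) * y i := by
    rw [Finset.mul_sum]
    refine Finset.sum_congr rfl fun i _ => ?_
    change _ = x i₀ * (algebraMap k K (c i) * (x i / x i₀))
    field_simp
  rw [h3, map_mul, h2, mul_one]

end Pool.Agent.TG9
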