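import Mathlib

/-!
# TANK G, track BC9: peeling

`v` is a valuation of `K`, trivial on `k`.  `GA κ k v N`: for elements `x i` of the `κ`-subspace
`N` and `c i ∈ k` linearly independent over `κ` one has `v (x i) ≤ v (∑ c i * x i)` (Gauss
property).

`slot` is the peeling of one slot; `peel` is the theorem: for a multilinear first order operator
`Q`, a 'generic' tuple `f` of `W ^ t` and every tuple `g` of `W' ^ t` one has
`v (Q g) ≤ v (Q f)`.
-/

set_option autoImplicit false

namespace Pool.Agent.TG9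

open scoped BigOperators

section GA

variable {κ k K : Type*} [Field κ] [Field k] [Field K] [Algebra κ k] [Algebra k K] [Algebra κ K]
  [IsScalarTower κ k K] {Γ₀ : Type*} [LinearOrderedCommGroupWithZero Γ₀]

/-- The Gauss property. -/
def GA (κ k : Type*) {K : Type*} [Field κ] [Field k] [Field K] [Algebra κ k] [Algebra k K]
    [Algebra κ K] {Γ₀ : Type*} [LinearOrderedCommGroupWithZero Γ₀]
    (v : Valuation K Γ₀) (N : Submodule κ K) : Prop :=
  ∀ (r : ℕ) (c : Fin r → k) (x : Fin r → K), LinearIndependent κ c → (∀ i, x i ∈ N) →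
    ∀ i, v (x i) ≤ v (∑ i, algebraMap k K (c i) * x i)

omit [IsScalarTower κ k K] in
theorem GA.fintype {v : Valuation K Γ₀} {N : Submodule κ K} (h : GA κ k v N)
    {ι : Type*} [Fintype ι] (c : ι → k) (x : ι → K) (hc : LinearIndependent κ c)
    (hx : ∀ i, x i ∈ N) (i : ι) : v (x i) ≤ v (∑ i, algebraMap k K (c i) * x i) := by
  classical
  let e := Fintype.equivFin ι
  have h1 := h (Fintype.card ι) (c ∘ e.symm) (x ∘ e.symm)
    (hc.comp _ e.symm.injective) (fun i => hx _) (e i)
  have h2 : ∑ j, algebraMap k K ((c ∘ e.symm) j) * (x ∘ e.symm) j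
      = ∑ j, algebraMap k K (c j) * x j := by
    apply Fintype.sum_equiv e.symm
    intro j
    rfl
  rw [h2] at h1
  simpa using h1

theorem repr_smul {κ' : Type*} [Field κ'] [Algebra κ κ'] [Algebra κ' K]
    [IsScalarTower κ κ' K] {ι : Type*} (B : Module.Basis ι κ κ') (a : κ') (x : K) :
    algebraMap κ' K a * x
      = (B.repr a).sum fun i c => algebraMap κ' K (B i) * (c • x) := by
  have h1 : algebraMap κ' K ((B.repr a).sum fun i c => c • B i) = algebraMap κ' K a := by
    have := B.linearCombination_repr a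
    rw [Finsupp.linearCombination_apply] at this
    rw [this]
  rw [← h1, Finsupp.sum, map_sum, Finset.sum_mul, Finsupp.sum]
  apply Finset.sum_congr rfl
  intro j _
  rw [Algebra.smul_def, Algebra.smul_def, map_mul, ← IsScalarTower.algebraMap_apply]
  ring

/-- Elements of the span of `N` over a bigger field, written with a basis. -/
theorem mem_span_iff_basis {κ' : Type*} [Field κ'] [Algebra κ κ'] [Algebra κ' K]
    [IsScalarTower κ κ' K] (N : Submodule κ K) {ι : Type*} (B : Module.Basis ι κ κ')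
    {x : K} (hx : x ∈ Submodule.span κ' (N : Set K)) :
    ∃ y : ι →₀ K, (∀ i, y i ∈ N) ∧ x = y.sum fun i a => algebraMap κ' K (B i) * a := by
  classical
  induction hx using Submodule.span_induction with
  | mem x hx =>
    refine ⟨(B.repr 1).mapRange (fun a => a • x) (by simp), ?_, ?_⟩
    · intro i
      simp only [Finsupp.mapRange_apply]
      exact N.smul_mem _ hx
    · rw [Finsupp.sum_mapRange_index (by simp), ← repr_smul, map_one, one_mul]
  | zero => exact ⟨0, fun i => by simp, by simp⟩
  | add x y _ _ hx hy =>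
    obtain ⟨a, ha, rfl⟩ := hx
    obtain ⟨b, hb, rfl⟩ := hy
    refine ⟨a + b, fun i => N.add_mem (ha i) (hb i), ?_⟩
    rw [Finsupp.sum_add_index']
    · simp
    · intro i c d
      ring
  | smul a x _ hx =>
    obtain ⟨y, hy, rfl⟩ := hx
    refine ⟨y.sum fun i z => (B.repr (a * B i)).mapRange (fun c => c • z) (by simp), ?_, ?_⟩
    · intro j
      rw [Finsupp.sum, Finsupp.finsetSum_apply]
      refine N.sum_mem fun i _ => ?_
      simp only [Finsupp.mapRange_apply]
      exact N.smul_mem _ (hy i)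
    · rw [Finsupp.sum_sum_index (by simp) (by intro i c d; ring)]
      rw [Finsupp.smul_sum]
      refine Finsupp.sum_congr fun i _ => ?_
      rw [Finsupp.sum_mapRange_index (by simp), ← repr_smul, Algebra.smul_def, map_mul]
      ring

omit [IsScalarTower κ k K] in
/-- The Gauss property passes to a bigger field. -/
theorem GA.span {v : Valuation K Γ₀} (hv : ∀ c : k, v (algebraMap k K c) ≤ 1)
    {N : Submodule κ K} (h : GA κ k v N)
    (κ' : Type*) [Field κ'] [Algebra κ κ'] [Algebra κ' k] [IsScalarTower κ κ' k]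
    [Algebra κ' K] [IsScalarTower κ κ' K] [IsScalarTower κ' k K] :
    GA κ' k v (Submodule.span κ' (N : Set K)) := by
  classical
  intro r c x hc hx i
  let B := Module.Basis.ofVectorSpace κ κ'
  choose y hyN hy using fun i => mem_span_iff_basis N B (hx i)
  let T : Finset _ := Finset.univ.biUnion fun i => (y i).support
  have hyT : ∀ i, x i = ∑ l : T, algebraMap κ' K (B l) * y i l := by
    intro i
    rw [hy i, Finsupp.sum_of_support_subset (y i) (s := T)
      (Finset.subset_biUnion_of_mem (fun i => (y i).support) (Finset.mem_univ i)) _ (by simp)]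
    exact (Finset.sum_coe_sort T fun l => algebraMap κ' K (B l) * y i l).symm
  have hB : LinearIndependent κ (fun l : T => (B l : κ')) :=
    B.linearIndependent.comp _ Subtype.val_injective
  have hBc := linearIndependent_smul hB hc
  have key : ∑ p : T × Fin r, algebraMap k K ((B p.1 : κ') • c p.2) * y p.2 p.1
      = ∑ i, algebraMap k K (c i) * x i := by
    rw [Fintype.sum_prod_type_right]
    refine Finset.sum_congr rfl fun i _ => ?_
    rw [hyT i, Finset.mul_sum]
    refine Finset.sum_congr rfl fun l _ => ?_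
    rw [Algebra.smul_def, map_mul, ← IsScalarTower.algebraMap_apply]
    ring
  have h1 : ∀ l : T, v (y i l) ≤ v (∑ i, algebraMap k K (c i) * x i) := by
    intro l
    rw [← key]
    exact h.fintype (fun p : T × Fin r => (B p.1 : κ') • c p.2) (fun p => y p.2 p.1) hBc
      (fun p => hyN _ _) (l, i)
  rw [hyT i]
  refine v.map_sum_le fun l _ => ?_
  rw [map_mul]
  refine le_trans ?_ (h1 l)
  refine mul_le_of_le_one_left' ?_
  rw [IsScalarTower.algebraMap_apply κ' k K]
  exact hv _

/-- If a small combination `∑ c j * m j` of elements of a subspace with the Gauss property is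
given, then the rank of `c` over the small field is at most the dimension of the space of all
coefficient vectors with small combination. -/
theorem rank_le {v : Valuation K Γ₀} {N : Submodule κ K} (h : GA κ k v N)
    {s : ℕ} (c : Fin s → k) (m : Fin s → K) (hm : ∀ j, m j ∈ N) {γ : Γ₀}
    (U : Submodule k (Fin s → k))
    (hU : ∀ a : Fin s → k, v (∑ j, algebraMap k K (a j) * m j) < γ → a ∈ U)
    (hc : v (∑ j, algebraMap k K (c j) * m j) < γ) :
    Module.finrank κ (Submodule.span κ (Set.range c)) ≤ Module.finrank k U := by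
  classical
  obtain ⟨b, hb1, hb2, hb3⟩ := exists_linearIndependent κ (Set.range c)
  have hbfin : b.Finite := (Set.finite_range c).subset hb1
  have := hbfin.fintype
  have hspan : Submodule.span κ (Set.range ((↑) : b → k)) = Submodule.span κ (Set.range c) := by
    rw [Subtype.range_coe_subtype, Set.ofPred_mem_eq, hb2]
  let B : Module.Basis b κ (Submodule.span κ (Set.range ((↑) : b → k))) := Module.Basis.span hb3
  have hcm : ∀ j, c j ∈ Submodule.span κ (Set.range ((↑) : b → k)) := by
    intro j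
    rw [hspan]
    exact Submodule.subset_span ⟨j, rfl⟩
  -- the coefficients
  let R : b → Fin s → κ := fun l j => B.repr ⟨c j, hcm j⟩ l
  have hR : ∀ j, c j = ∑ l : b, R l j • (l : k) := by
    intro j
    have h1 := B.sum_repr ⟨c j, hcm j⟩
    have h2 := congrArg (Subtype.val) h1
    rw [AddSubmonoidClass.coe_finsetSum] at h2
    simp only [Submodule.coe_smul] at h2
    rw [← h2]
    refine Finset.sum_congr rfl fun l _ => ?_
    rw [Module.Basis.span_apply]
  choose J hJ using fun l : b => hb1 l.2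
  have hRJ : ∀ l l' : b, R l (J l') = if l = l' then 1 else 0 := by
    intro l l'
    have h1 : (⟨c (J l'), hcm (J l')⟩ : Submodule.span κ (Set.range ((↑) : b → k))) = B l' := by
      apply Subtype.ext
      rw [Module.Basis.span_apply]
      exact hJ l'
    change B.repr ⟨c (J l'), hcm (J l')⟩ l = _
    rw [h1, Module.Basis.repr_self, Finsupp.single_apply]
    simp only [eq_comm]
  -- the rows are in `U`
  have hrow : ∀ l : b, (fun j => algebraMap κ k (R l j)) ∈ U := by
    intro l
    apply hU
    have h1 : ∑ j, algebraMap k K (c j) * m j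
        = ∑ l : b, algebraMap k K (l : k) * (∑ j, R l j • m j) := by
      simp_rw [Finset.mul_sum]
      rw [Finset.sum_comm]
      refine Finset.sum_congr rfl fun j _ => ?_
      conv_lhs => rw [hR j]
      rw [map_sum, Finset.sum_mul]
      refine Finset.sum_congr rfl fun l _ => ?_
      rw [Algebra.smul_def, Algebra.smul_def, map_mul, ← IsScalarTower.algebraMap_apply]
      ring
    have h2 : v (∑ j, R l j • m j) ≤ v (∑ j, algebraMap k K (c j) * m j) := by
      rw [h1]
      exact h.fintype (fun l : b => (l : k)) (fun l => ∑ j, R l j • m j) hb3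
        (fun l => N.sum_mem fun j _ => N.smul_mem _ (hm j)) l
    refine lt_of_eq_of_lt ?_ (lt_of_le_of_lt h2 hc)
    congr 1
    refine Finset.sum_congr rfl fun j _ => ?_
    rw [Algebra.smul_def, ← IsScalarTower.algebraMap_apply]
  -- the rows are independent
  have hli : LinearIndependent k (fun l : b => (⟨_, hrow l⟩ : U)) := by
    rw [Fintype.linearIndependent_iff]
    intro a ha l'
    have h1 := congrArg (fun u : U => (u : Fin s → k) (J l')) ha
    simp only [AddSubmonoidClass.coe_finsetSum, Submodule.coe_smul, Finset.sum_apply,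
      Pi.smul_apply, smul_eq_mul, ZeroMemClass.coe_zero, Pi.zero_apply] at h1
    simp_rw [hRJ] at h1
    simpa using h1
  have h3 := hli.fintype_card_le_finrank
  have h4 : Module.finrank κ (Submodule.span κ (Set.range c)) = Fintype.card b := by
    rw [← hspan]
    exact finrank_span_eq_card hb3
  omega

end GA

section Codim

variable {k K : Type*} [Field k] [Field K] [Algebra k K]
  {Γ₀ : Type*} [LinearOrderedCommGroupWithZero Γ₀]

/-- A combination of elements of distinct values is as big as its biggest term. -/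
theorem val_sum_ge {v : Valuation K Γ₀} (hv : ∀ c : k, c ≠ 0 → v (algebraMap k K c) = 1)
    {ι : Type*} (G : Finset ι) (x : ι → K) (a : ι → k) {γ : Γ₀} (hγ : 0 < γ)
    (hx : ∀ i ∈ G, γ ≤ v (x i)) (hd : ∀ i ∈ G, ∀ j ∈ G, i ≠ j → v (x i) ≠ v (x j))
    (ha : ∃ i ∈ G, a i ≠ 0) : γ ≤ v (∑ i ∈ G, algebraMap k K (a i) * x i) := by
  classical
  let H := G.filter fun i => a i ≠ 0
  have hH : H.Nonempty := by
    obtain ⟨i, hi, hi'⟩ := ha
    exact ⟨i, Finset.mem_filter.2 ⟨hi, hi'⟩⟩
  obtain ⟨i, hi, hmax⟩ := H.exists_max_image (fun i => v (x i)) hH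
  have hiG := (Finset.mem_filter.1 hi).1
  have hia := (Finset.mem_filter.1 hi).2
  rw [← Finset.add_sum_erase G _ hiG]
  have h1 : v (algebraMap k K (a i) * x i) = v (x i) := by
    rw [map_mul, hv _ hia, one_mul]
  have h2 : v (∑ j ∈ G.erase i, algebraMap k K (a j) * x j)
      < v (algebraMap k K (a i) * x i) := by
    rw [h1]
    refine v.map_sum_lt (ne_of_gt (lt_of_lt_of_le hγ (hx i hiG))) fun j hj => ?_
    obtain ⟨hji, hjG⟩ := Finset.mem_erase.1 hj
    by_cases haj : a j = 0
    · rw [haj, map_zero, zero_mul, map_zero]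
      exact lt_of_lt_of_le hγ (hx i hiG)
    · rw [map_mul, hv _ haj, one_mul]
      exact lt_of_le_of_ne (hmax j (Finset.mem_filter.2 ⟨hjG, haj⟩)) (hd j hjG i hiG hji)
  rw [Valuation.map_add_eq_of_lt_left v h2, h1]
  exact hx i hiG

/-- Codimension from distinct values. -/
theorem codim_le {v : Valuation K Γ₀} (hv : ∀ c : k, c ≠ 0 → v (algebraMap k K c) = 1)
    {s : ℕ} (m : Fin s → K) {γ : Γ₀} (hγ : 0 < γ) (U : Submodule k (Fin s → k))
    (hU : ∀ a : Fin s → k, a ∈ U → v (∑ j, algebraMap k K (a j) * m j) < γ)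
    {ι : Type*} (G : Finset ι) (h : ι → Fin s → k)
    (hx : ∀ i ∈ G, γ ≤ v (∑ j, algebraMap k K (h i j) * m j))
    (hd : ∀ i ∈ G, ∀ j ∈ G, i ≠ j → v (∑ l, algebraMap k K (h i l) * m l)
      ≠ v (∑ l, algebraMap k K (h j l) * m l)) :
    Module.finrank k U + G.card ≤ s := by
  classical
  have hli : LinearIndependent k (fun i : G => U.mkQ (h i)) := by
    rw [Fintype.linearIndependent_iff]
    intro a ha i
    by_contra hi
    have h1 : ∑ i : G, a i • h i ∈ U := by
      rw [← Submodule.ker_mkQ U, LinearMap.mem_ker, map_sum]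
      simpa only [map_smul] using ha
    have h2 := hU _ h1
    let a' : ι → k := fun i => if hi : i ∈ G then a ⟨i, hi⟩ else 0
    have h3 : ∑ j, algebraMap k K ((∑ i : G, a i • h i) j) * m j
        = ∑ i ∈ G, algebraMap k K (a' i) * (∑ j, algebraMap k K (h i j) * m j) := by
      rw [← Finset.sum_coe_sort G]
      simp_rw [Finset.mul_sum]
      rw [Finset.sum_comm]
      refine Finset.sum_congr rfl fun j _ => ?_
      rw [Finset.sum_apply, map_sum, Finset.sum_mul]
      refine Finset.sum_congr rfl fun i _ => ?_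
      have : a' i = a i := by
        simp only [a', i.2, dite_true]
      rw [this, Pi.smul_apply, smul_eq_mul, map_mul]
      ring
    rw [h3] at h2
    refine absurd h2 (not_lt.2 ?_)
    refine val_sum_ge hv G _ a' hγ hx hd ⟨i, i.2, ?_⟩
    simpa only [a', i.2, dite_true] using hi
  have h1 := hli.fintype_card_le_finrank
  have h2 := U.finrank_quotient_add_finrank
  rw [Module.finrank_fin_fun] at h2
  rw [Fintype.card_coe] at h1
  omega

end Codim

section Op

variable {k K : Type*} [Field k] [Field K] [Algebra k K]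
  {Γ₀ : Type*} [LinearOrderedCommGroupWithZero Γ₀]

/-- The data of a point `x` of the model `W`, seen by a valuation `v` over `x`: `g` does not vanish
at `x`, `W'` is the subspace of the elements vanishing at `x`, and `ν = v (z / g)` for an element
`z` of `W'` of minimal order. -/
structure PD (v : Valuation K Γ₀) (W W' : Submodule k K) (g z : K) (ν : Γ₀) : Prop where
  gW : g ∈ W
  g0 : g ≠ 0
  zW : z ∈ W'
  le : W' ≤ W
  vz : v z = ν * v g
  vW : ∀ w ∈ W, v w ≤ v g
  vW' : ∀ w ∈ W', v w ≤ ν * v g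
  ν0 : 0 < ν
  ν1 : ν < 1

theorem op_mul (σ : Derivation k K K) (β x h : K) :
    σ (x * h) + β * (x * h) = x * (σ h + β * h) + h * σ x := by
  rw [σ.leibniz, smul_eq_mul, smul_eq_mul]
  ring

theorem val_add_le' {v : Valuation K Γ₀} {x y : K} {μ : Γ₀} (hx : v x ≤ μ) (hy : v y ≤ μ) :
    v (x + y) ≤ μ := (v.map_add x y).trans (max_le hx hy)

theorem val_sub_le' {v : Valuation K Γ₀} {x y : K} {μ : Γ₀} (hx : v x ≤ μ) (hy : v y ≤ μ) :
    v (x - y) ≤ μ := (v.map_sub x y).trans (max_le hx hy)

variable {v : Valuation K Γ₀} {W W' : Submodule k K} {g z : K} {ν : Γ₀}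

theorem PD.vdiv (h : PD v W W' g z ν) {w : K} (hw : w ∈ W) : v (w / g) ≤ 1 := by
  rw [map_div₀]
  exact div_le_one_of_le₀ (h.vW w hw) zero_le

theorem PD.vg (h : PD v W W' g z ν) : v g ≠ 0 := v.ne_zero_iff.2 h.g0

theorem PD.vdiv' (h : PD v W W' g z ν) {w : K} (hw : w ∈ W') : v (w / g) ≤ ν := by
  rw [map_div₀, div_le_iff₀ (zero_lt_iff.2 h.vg)]
  exact h.vW' w hw

theorem PD.sig (h : PD v W W' g z ν) (σ : Derivation k K K) (β : K) {t : ℕ} {μ : Γ₀}
    (hμ : ∀ w ∈ W, v (σ (g ^ t * w) + β * (g ^ t * w)) ≤ μ) {w : K} (hw : w ∈ W) :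
    v (g ^ (t + 1) * σ (w / g)) ≤ μ := by
  have h1 : g ^ (t + 1) * σ (w / g)
      = (σ (g ^ t * w) + β * (g ^ t * w)) - (w / g) * (σ (g ^ t * g) + β * (g ^ t * g)) := by
    have h2 := op_mul σ β (w / g) (g ^ t * g)
    have h3 : w / g * (g ^ t * g) = g ^ t * w := by
      field_simp [h.g0]
    rw [h3] at h2
    rw [h2, pow_succ]
    ring
  rw [h1]
  refine val_sub_le' (hμ w hw) ?_
  rw [map_mul]
  exact le_trans (mul_le_of_le_one_left' (h.vdiv hw)) (hμ g h.gW)

theorem PD.bound_aux (h : PD v W W' g z ν) (hv : ∀ c : k, v (algebraMap k K c) ≤ 1)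
    (σ : Derivation k K K) (β : K) {t : ℕ} {μ : Γ₀}
    (hμ : ∀ w ∈ W, v (σ (g ^ t * w) + β * (g ^ t * w)) ≤ μ) (m : ℕ) :
    ∀ x ∈ W ^ m, v (x / g ^ m) ≤ 1 ∧ v (g ^ (t + 1) * σ (x / g ^ m)) ≤ μ := by
  induction m with
  | zero =>
    intro x hx
    rw [pow_zero, Submodule.mem_one] at hx
    obtain ⟨c, rfl⟩ := hx
    rw [pow_zero, div_one]
    refine ⟨hv c, ?_⟩
    rw [σ.map_algebraMap, mul_zero, map_zero]
    exact zero_le
  | succ m ih =>
    intro x hx
    rw [pow_succ] at hx
    refine Submodule.mul_induction_on hx ?_ ?_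
    · intro y hy w hw
      obtain ⟨h1, h2⟩ := ih y hy
      have h3 : y * w / g ^ (m + 1) = (y / g ^ m) * (w / g) := by
        rw [pow_succ, mul_div_mul_comm]
      rw [h3]
      constructor
      · rw [map_mul]
        exact mul_le_one' h1 (h.vdiv hw)
      · rw [σ.leibniz, smul_eq_mul, smul_eq_mul, mul_add]
        refine val_add_le' ?_ ?_
        · rw [mul_left_comm, map_mul]
          exact le_trans (mul_le_of_le_one_left' h1) (h.sig σ β hμ hw)
        · rw [mul_left_comm, map_mul]
          exact le_trans (mul_le_of_le_one_left' (h.vdiv hw)) h2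
    · intro a b ha hb
      rw [add_div, map_add σ, mul_add]
      exact ⟨val_add_le' ha.1 hb.1, val_add_le' ha.2 hb.2⟩

theorem op_div (σ : Derivation k K K) (β x h : K) (hh : h ≠ 0) :
    σ x + β * x = (x / h) * (σ h + β * h) + h * σ (x / h) := by
  have := op_mul σ β (x / h) h
  rwa [div_mul_cancel₀ x hh] at this

/-- The order of `M` on `W ^ (t + 1)` is minimal at some `g ^ t * w`. -/
theorem PD.bound (h : PD v W W' g z ν) (hv : ∀ c : k, v (algebraMap k K c) ≤ 1)
    (σ : Derivation k K K) (β : K) {t : ℕ} {μ : Γ₀}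
    (hμ : ∀ w ∈ W, v (σ (g ^ t * w) + β * (g ^ t * w)) ≤ μ) :
    ∀ x ∈ W ^ (t + 1), v (σ x + β * x) ≤ μ := by
  intro x hx
  obtain ⟨h1, h2⟩ := h.bound_aux hv σ β hμ (t + 1) x hx
  rw [op_div σ β x (g ^ (t + 1)) (pow_ne_zero _ h.g0)]
  refine val_add_le' ?_ h2
  rw [map_mul]
  refine le_trans (mul_le_of_le_one_left' h1) ?_
  rw [pow_succ]
  exact hμ g h.gW

theorem PD.gain_aux (h : PD v W W' g z ν)
    (σ : Derivation k K K) (β : K) {t : ℕ} {μ : Γ₀}
    (hμ : ∀ w ∈ W, v (σ (g ^ t * w) + β * (g ^ t * w)) ≤ μ) (m : ℕ) :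
    ∀ x ∈ W' ^ (m + 1), v (x / g ^ (m + 1)) ≤ ν ^ (m + 1) ∧
      v (g ^ (t + 1) * σ (x / g ^ (m + 1))) ≤ ν ^ m * μ := by
  induction m with
  | zero =>
    intro x hx
    rw [zero_add, pow_one] at hx
    rw [zero_add, pow_one, pow_one, pow_zero, one_mul]
    exact ⟨h.vdiv' hx, h.sig σ β hμ (h.le hx)⟩
  | succ m ih =>
    intro x hx
    rw [pow_succ] at hx
    refine Submodule.mul_induction_on hx ?_ ?_
    · intro y hy w hw
      obtain ⟨h1, h2⟩ := ih y hy
      have h3 : y * w / g ^ (m + 1 + 1) = (y / g ^ (m + 1)) * (w / g) := by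
        rw [pow_succ g (m + 1), mul_div_mul_comm]
      rw [h3]
      constructor
      · rw [map_mul, pow_succ ν (m + 1)]
        exact mul_le_mul' h1 (h.vdiv' hw)
      · rw [σ.leibniz, smul_eq_mul, smul_eq_mul, mul_add]
        refine val_add_le' ?_ ?_
        · rw [mul_left_comm, map_mul]
          exact mul_le_mul' h1 (h.sig σ β hμ (h.le hw))
        · rw [mul_left_comm, map_mul, pow_succ ν m, mul_comm (ν ^ m) ν, mul_assoc]
          exact mul_le_mul' (h.vdiv' hw) h2
    · intro a b ha hb
      rw [add_div, map_add σ, mul_add]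
      exact ⟨val_add_le' ha.1 hb.1, val_add_le' ha.2 hb.2⟩

/-- Elements of `W' ^ (t + 1)` gain `ν ^ t`. -/
theorem PD.gain (h : PD v W W' g z ν)
    (σ : Derivation k K K) (β : K) {t : ℕ} {μ : Γ₀}
    (hμ : ∀ w ∈ W, v (σ (g ^ t * w) + β * (g ^ t * w)) ≤ μ) :
    ∀ x ∈ W' ^ (t + 1), v (σ x + β * x) ≤ ν ^ t * μ := by
  intro x hx
  obtain ⟨h1, h2⟩ := h.gain_aux σ β hμ t x hx
  rw [op_div σ β x (g ^ (t + 1)) (pow_ne_zero _ h.g0)]
  refine val_add_le' ?_ h2
  rw [map_mul]
  refine mul_le_mul' (h1.trans ?_) ?_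
  · rw [pow_succ]
    exact mul_le_of_le_one_right' h.ν1.le
  · rw [pow_succ]
    exact hμ g h.gW

/-- A linear map on a finitely generated space has elements of minimal order in its image. -/
theorem exists_max (hv : ∀ c : k, v (algebraMap k K c) ≤ 1) (hW : W.FG) (T : K →ₗ[k] K) :
    ∃ w₀ ∈ W, ∀ w ∈ W, v (T w) ≤ v (T w₀) := by
  classical
  obtain ⟨F, hF⟩ := hW
  rcases F.eq_empty_or_nonempty with h0 | h0
  · refine ⟨0, W.zero_mem, fun w hw => ?_⟩
    rw [← hF, h0, Finset.coe_empty, Submodule.span_empty, Submodule.mem_bot] at hw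
    rw [hw]
  · obtain ⟨w₀, hw₀, hmax⟩ := F.exists_max_image (fun w => v (T w)) h0
    refine ⟨w₀, hF ▸ Submodule.subset_span hw₀, fun w hw => ?_⟩
    rw [← hF] at hw
    induction hw using Submodule.span_induction with
    | mem x hx => exact hmax x hx
    | zero => rw [map_zero, map_zero]; exact zero_le
    | add x y _ _ hx hy => rw [map_add]; exact val_add_le' hx hy
    | smul a x _ hx =>
      rw [map_smul, Algebra.smul_def, map_mul]
      exact le_trans (mul_le_of_le_one_left' (hv a)) hx

/-- Among `q + 1` consecutive multiples at most one is bad. -/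
theorem good_mult (hv : ∀ c : k, c ≠ 0 → v (algebraMap k K c) = 1) (a b : K) (q : ℕ)
    (hchar : ∀ l : ℕ, 0 < l → l ≤ q → (l : k) ≠ 0) :
    ∃ G ⊆ Finset.range (q + 1), q ≤ G.card ∧
      ∀ l ∈ G, v (a + (l : K) * b) = max (v a) (v b) := by
  classical
  have hv1 : ∀ c : k, v (algebraMap k K c) ≤ 1 := by
    intro c
    by_cases hc : c = 0
    · rw [hc, map_zero, map_zero]; exact zero_le
    · exact (hv c hc).le
  have hvn : ∀ l : ℕ, v (l : K) ≤ 1 := by
    intro l
    have := hv1 (l : k)
    rwa [map_natCast] at this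
  refine ⟨(Finset.range (q + 1)).filter fun l : ℕ => v (a + (l : K) * b) = max (v a) (v b),
    Finset.filter_subset _ _, ?_, fun l hl => (Finset.mem_filter.1 hl).2⟩
  have h1 : ((Finset.range (q + 1)).filter
      fun l : ℕ => ¬ v (a + (l : K) * b) = max (v a) (v b)).card ≤ 1 := by
    rw [Finset.card_le_one]
    -- two different bad `l` are impossible
    have key : ∀ l l' : ℕ, l < l' → l' ≤ q → v (a + (l : K) * b) < max (v a) (v b) →
        v (a + (l' : K) * b) < max (v a) (v b) → False := by
      intro l l' hll hl'q hl hl'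
      have h2 : v b < max (v a) (v b) := by
        have h3 : v (((l' - l : ℕ) : K) * b) < max (v a) (v b) := by
          have h4 : ((l' - l : ℕ) : K) * b = (a + (l' : K) * b) - (a + (l : K) * b) := by
            rw [Nat.cast_sub hll.le]
            ring
          rw [h4]
          exact v.map_sub_lt hl' hl
        rw [map_mul] at h3
        have h5 : v ((l' - l : ℕ) : K) = 1 := by
          have := hv ((l' - l : ℕ) : k) (hchar _ (by omega) (by omega))
          rwa [map_natCast] at this
        rwa [h5, one_mul] at h3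
      have h3 : v a < max (v a) (v b) := by
        have h4 : a = (a + (l : K) * b) - (l : K) * b := by ring
        conv_lhs => rw [h4]
        refine v.map_sub_lt hl ?_
        rw [map_mul]
        exact lt_of_le_of_lt (mul_le_of_le_one_left' (hvn l)) h2
      exact absurd (max_lt h3 h2) (lt_irrefl _)
    have hbad : ∀ l : ℕ, ¬ v (a + (l : K) * b) = max (v a) (v b) →
        v (a + (l : K) * b) < max (v a) (v b) := by
      intro l hl
      refine lt_of_le_of_ne ?_ hl
      refine (v.map_add _ _).trans (max_le_max le_rfl ?_)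
      rw [map_mul]
      exact mul_le_of_le_one_left' (hvn l)
    intro l hl l' hl'
    obtain ⟨hl1, hl2⟩ := Finset.mem_filter.1 hl
    obtain ⟨hl1', hl2'⟩ := Finset.mem_filter.1 hl'
    rw [Finset.mem_range] at hl1 hl1'
    rcases lt_trichotomy l l' with h | h | h
    · exact (key l l' h (by omega) (hbad l hl2) (hbad l' hl2')).elim
    · exact h
    · exact (key l' l h (by omega) (hbad l' hl2') (hbad l hl2)).elim
  have h2 := Finset.card_filter_add_card_filter_not (s := Finset.range (q + 1))
    (fun l : ℕ => v (a + (l : K) * b) = max (v a) (v b))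
  rw [Finset.card_range] at h2
  omega

end Op

section Slot

variable {κ k K : Type*} [Field κ] [Field k] [Field K] [Algebra κ k] [Algebra k K] [Algebra κ K]
  [IsScalarTower κ k K] {Γ₀ : Type*} [LinearOrderedCommGroupWithZero Γ₀]

/-- The space of the small coefficient vectors. -/
def smallU (k : Type*) {K : Type*} [Field k] [Field K] [Algebra k K] {Γ₀ : Type*}
    [LinearOrderedCommGroupWithZero Γ₀] (v : Valuation K Γ₀)
    (hv : ∀ c : k, v (algebraMap k K c) ≤ 1) {s : ℕ} (m : Fin s → K) {γ : Γ₀} (hγ : 0 < γ) :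
    Submodule k (Fin s → k) where
  carrier := {a | v (∑ j, algebraMap k K (a j) * m j) < γ}
  zero_mem' := by simpa using hγ
  add_mem' := by
    intro a b ha hb
    have h1 : ∑ j, algebraMap k K ((a + b) j) * m j
        = (∑ j, algebraMap k K (a j) * m j) + ∑ j, algebraMap k K (b j) * m j := by
      rw [← Finset.sum_add_distrib]
      refine Finset.sum_congr rfl fun j _ => ?_
      rw [Pi.add_apply, map_add, add_mul]
    change v (∑ j, algebraMap k K ((a + b) j) * m j) < γ
    rw [h1]
    exact v.map_add_lt ha hb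
  smul_mem' := by
    intro c a ha
    have h1 : ∑ j, algebraMap k K ((c • a) j) * m j
        = algebraMap k K c * ∑ j, algebraMap k K (a j) * m j := by
      rw [Finset.mul_sum]
      refine Finset.sum_congr rfl fun j _ => ?_
      rw [Pi.smul_apply, smul_eq_mul, map_mul, mul_assoc]
    change v (∑ j, algebraMap k K ((c • a) j) * m j) < γ
    rw [h1, map_mul]
    exact lt_of_le_of_lt (mul_le_of_le_one_left' (hv c)) ha

/-- The linear map `w ↦ σ (x * w) + β * (x * w)`. -/
def opL (σ : Derivation k K K) (β x : K) : K →ₗ[k] K :=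
  ((σ : K →ₗ[k] K) + LinearMap.mulLeft k β) ∘ₗ LinearMap.mulLeft k x

theorem opL_apply (σ : Derivation k K K) (β x w : K) :
    opL σ β x w = σ (x * w) + β * (x * w) := rfl

/-- PEELING OF ONE SLOT. -/
theorem slot {v : Valuation K Γ₀} {W W' : Submodule k K} {g z : K} {ν : Γ₀}
    (h : PD v W W' g z ν) (hv : ∀ c : k, c ≠ 0 → v (algebraMap k K c) = 1) (hW : W.FG)
    (σ : Derivation k K K) (β : K) {t : ℕ} {N : Submodule κ K} (hGA : GA κ k v N)
    {s : ℕ} (e : Fin s → K) (he : W ^ (t + 1) ≤ Submodule.span k (Set.range e))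
    (hN : ∀ j, σ (e j) + β * e j ∈ N) (c : Fin s → k) (d : ℕ)
    (hd : s ≤ Module.finrank κ (Submodule.span κ (Set.range c)) + d) (hdt : d + 1 ≤ t)
    (hchar : ∀ l : ℕ, 0 < l → l ≤ t → (l : k) ≠ 0) :
    ∀ x ∈ W ^ (t + 1), ν ^ (d + 1) * v (σ x + β * x)
      ≤ v (σ (∑ j, algebraMap k K (c j) * e j) + β * ∑ j, algebraMap k K (c j) * e j) := by
  classical
  have hv1 : ∀ c : k, v (algebraMap k K c) ≤ 1 := by
    intro c
    by_cases hc : c = 0
    · rw [hc, map_zero, map_zero]; exact zero_le
    · exact (hv c hc).le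
  obtain ⟨w₀, hw₀, hmax⟩ := exists_max hv1 hW (opL σ β (g ^ t))
  simp only [opL_apply] at hmax
  set μ := v (σ (g ^ t * w₀) + β * (g ^ t * w₀)) with hμdef
  have hb := h.bound hv1 σ β hmax
  intro x hx
  refine le_trans (mul_le_mul' le_rfl (hb x hx)) ?_
  by_cases hμ0 : μ = 0
  · rw [hμ0, mul_zero]; exact zero_le
  have hμpos : 0 < μ := zero_lt_iff.2 hμ0
  by_contra hcon
  rw [not_le] at hcon
  have hγ : 0 < ν ^ (d + 1) * μ := mul_pos (pow_pos h.ν0 _) hμpos
  let T : K →ₗ[k] K := (σ : K →ₗ[k] K) + LinearMap.mulLeft k β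
  have hT : ∀ y, T y = σ y + β * y := fun y => rfl
  have hTsum : ∀ a : Fin s → k, T (∑ j, algebraMap k K (a j) * e j)
      = ∑ j, algebraMap k K (a j) * T (e j) := by
    intro a
    rw [map_sum]
    refine Finset.sum_congr rfl fun j _ => ?_
    rw [← Algebra.smul_def, map_smul, Algebra.smul_def]
  let U := smallU k v hv1 (fun j => T (e j)) hγ
  have hUiff : ∀ a : Fin s → k, a ∈ U ↔ v (∑ j, algebraMap k K (a j) * T (e j))
      < ν ^ (d + 1) * μ := fun a => Iff.rfl
  -- the rank bound
  have h1 : Module.finrank κ (Submodule.span κ (Set.range c)) ≤ Module.finrank k U := by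
    refine rank_le hGA c (fun j => T (e j)) (fun j => hN j) U (fun a ha => ha) (γ := ν ^ (d + 1) * μ) ?_
    rw [← hTsum]
    exact hcon
  -- the codimension bound
  let θ := z / g
  have hz0 : z ≠ 0 := by
    intro hz
    have := h.vz
    rw [hz, map_zero] at this
    exact absurd this.symm (mul_ne_zero h.ν0.ne' h.vg)
  have hθ0 : θ ≠ 0 := div_ne_zero hz0 h.g0
  have hvθ : v θ = ν := by
    change v (z / g) = ν
    rw [map_div₀, h.vz, mul_div_assoc, div_self h.vg, mul_one]
  let a₀ := σ (g ^ t * w₀) + β * (g ^ t * w₀)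
  let b₀ := g ^ t * w₀ * σ θ / θ
  obtain ⟨G, hG1, hG2, hG3⟩ := good_mult hv a₀ b₀ (d + 1)
    (fun l hl hl' => hchar l hl (hl'.trans hdt))
  -- the elements `θ ^ l * g ^ t * w₀`
  have hmem : ∀ l ≤ t, θ ^ l * (g ^ t * w₀) ∈ W ^ (t + 1) := by
    intro l hl
    have h2 : θ ^ l * (g ^ t * w₀) = z ^ l * g ^ (t - l) * w₀ := by
      change (z / g) ^ l * (g ^ t * w₀) = _
      have h3 : g ^ t = g ^ l * g ^ (t - l) := by rw [← pow_add]; congr 1; omega
      rw [h3, div_pow]
      have := h.g0
      field_simp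
    rw [h2, pow_succ]
    refine Submodule.mul_mem_mul ?_ hw₀
    have h3 : W ^ t = W ^ l * W ^ (t - l) := by rw [← pow_add]; congr 1; omega
    rw [h3]
    exact Submodule.mul_mem_mul (Submodule.pow_mem_pow _ (h.le h.zW) _)
      (Submodule.pow_mem_pow _ h.gW _)
  have hcoord : ∀ l : ℕ, ∃ a : Fin s → k, l ≤ t →
      ∑ j, algebraMap k K (a j) * e j = θ ^ l * (g ^ t * w₀) := by
    intro l
    by_cases hl : l ≤ t
    · have h2 := he (hmem l hl)
      rw [Submodule.mem_span_range_iff_exists_fun] at h2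
      obtain ⟨a, ha⟩ := h2
      refine ⟨a, fun _ => ?_⟩
      rw [← ha]
      refine Finset.sum_congr rfl fun j _ => ?_
      rw [Algebra.smul_def]
    · exact ⟨0, fun h => absurd h hl⟩
  choose a ha using hcoord
  have hval : ∀ l ∈ G, v (∑ j, algebraMap k K (a l j) * T (e j))
      = ν ^ l * max (v a₀) (v b₀) := by
    intro l hl
    have hlt : l ≤ t := by
      have := Finset.mem_range.1 (hG1 hl)
      omega
    rw [← hTsum, ha l hlt, hT, op_mul]
    have h2 : θ ^ l * (σ (g ^ t * w₀) + β * (g ^ t * w₀)) + g ^ t * w₀ * σ (θ ^ l)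
        = θ ^ l * (a₀ + (l : K) * b₀) := by
      rw [σ.leibniz_pow]
      simp only [smul_eq_mul, nsmul_eq_mul]
      rcases l with _ | l
      · simp only [a₀, pow_zero, Nat.cast_zero, zero_mul, mul_zero, add_zero]
      · simp only [a₀, b₀, Nat.add_sub_cancel]
        have h3 : ((l + 1 : ℕ) : K) * (g ^ t * w₀ * σ θ / θ) * θ ^ (l + 1)
            = ((l + 1 : ℕ) : K) * (g ^ t * w₀ * σ θ) * θ ^ l := by
          rw [pow_succ]
          field_simp
        linear_combination -h3
    rw [h2, map_mul, map_pow, hvθ, hG3 l hl]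
  have hpow_inj : ∀ i j : ℕ, i < j → ν ^ i ≠ ν ^ j := by
    intro i j hij
    exact (pow_lt_pow_right_of_lt_one₀ h.ν0 h.ν1 hij).ne'
  have hmax0 : max (v a₀) (v b₀) ≠ 0 := by
    refine (lt_of_lt_of_le hμpos (le_max_left _ _)).ne'
  have h2 := codim_le hv (fun j => T (e j)) hγ U (fun a ha => ha) G a
    (fun l hl => by
      rw [hval l hl]
      refine mul_le_mul' ?_ (le_max_left _ _)
      refine pow_le_pow_right_of_le_one' h.ν1.le ?_
      have := Finset.mem_range.1 (hG1 hl)
      omega)
    (fun i hi j hj hij => by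
      rw [hval i hi, hval j hj]
      intro hcon
      have h3 := mul_right_cancel₀ hmax0 hcon
      rcases lt_or_gt_of_ne hij with h4 | h4
      · exact hpow_inj i j h4 h3
      · exact hpow_inj j i h4 h3.symm)
  omega

end Slot

section Multi

variable {κ k K : Type*} [Field κ] [Field k] [Field K] [Algebra κ k] [Algebra k K] [Algebra κ K]
  [IsScalarTower κ k K] {Γ₀ : Type*} [LinearOrderedCommGroupWithZero Γ₀]

/-- `Q` is a first order operator in every slot. -/
def FirstOrder {k K : Type*} [Field k] [Field K] [Algebra k K] {n : ℕ}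
    (Q : MultilinearMap k (fun _ : Fin (n + 1) => K) K) : Prop :=
  ∀ (i : Fin (n + 1)) (u : Fin (n + 1) → K), ∃ (σ : Derivation k K K) (β : K), ∀ x : K,
    Q (Function.update u i x) = σ x + β * x

theorem expand {n : ℕ} (Q : MultilinearMap k (fun _ : Fin (n + 1) => K) K) {s : ℕ}
    (e : Fin s → K) (C : Fin (n + 1) → Fin s → k) :
    Q (fun j => ∑ l, algebraMap k K (C j l) * e l)
      = ∑ r : Fin (n + 1) → Fin s, algebraMap k K (∏ j, C j (r j)) * Q (fun j => e (r j)) := by
  classical
  rw [MultilinearMap.map_sum Q (fun j l => algebraMap k K (C j l) * e l)]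
  refine Finset.sum_congr rfl fun r _ => ?_
  have := Q.map_smul_univ (fun j => C j (r j)) (fun j => e (r j))
  rw [Algebra.smul_def] at this
  rw [← this]
  congr 1
  funext j
  rw [Algebra.smul_def]

omit [Algebra κ k] [IsScalarTower κ k K] in
/-- The elements `∑ C j l * e l` with `C j l ∈ L`. -/
theorem expand_mem {n : ℕ} (Q : MultilinearMap k (fun _ : Fin (n + 1) => K) K) {s : ℕ}
    (e : Fin s → K) {N : Submodule κ K} (hN : ∀ u : Fin (n + 1) → Fin s, Q (fun j => e (u j)) ∈ N)
    (κ' : Type*) [Field κ'] [Algebra κ' k] [Algebra κ' K] [IsScalarTower κ' k K]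
    (C : Fin (n + 1) → Fin s → k) (hC : ∀ j l, C j l ∈ (algebraMap κ' k).range) :
    Q (fun j => ∑ l, algebraMap k K (C j l) * e l) ∈ Submodule.span κ' (N : Set K) := by
  classical
  rw [expand]
  refine Submodule.sum_mem _ fun r _ => ?_
  have h1 : ∏ j, C j (r j) ∈ (algebraMap κ' k).range := Subring.prod_mem _ fun j _ => hC _ _
  obtain ⟨a, ha⟩ := h1
  rw [← ha, ← IsScalarTower.algebraMap_apply, ← Algebra.smul_def]
  exact Submodule.smul_mem _ _ (Submodule.subset_span (hN r))

variable {v : Valuation K Γ₀} {W W' : Submodule k K} {g z : K} {ν : Γ₀}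

/-- The gain of the tuples of `W' ^ (t + 1)`. -/
theorem gain_multi (h : PD v W W' g z ν) (hv : ∀ c : k, v (algebraMap k K c) ≤ 1) (hW : W.FG)
    {n t : ℕ} (Q : MultilinearMap k (fun _ : Fin (n + 1) => K) K) (hQ : FirstOrder Q)
    (y : Fin (n + 1) → K) (hy : ∀ j, y j ∈ W' ^ (t + 1)) (i : ℕ) (hi : i ≤ n + 1) :
    ∃ x : Fin (n + 1) → K, (∀ j : Fin (n + 1), (j : ℕ) < i → x j ∈ W ^ (t + 1)) ∧
      (∀ j : Fin (n + 1), i ≤ j → x j = y j) ∧ v (Q y) ≤ ν ^ (i * t) * v (Q x) := by
  classical
  induction i with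
  | zero => exact ⟨y, by intro j hj; omega, fun j _ => rfl, by rw [zero_mul, pow_zero, one_mul]⟩
  | succ i ih =>
    obtain ⟨x, hx1, hx2, hx3⟩ := ih (by omega)
    let i' : Fin (n + 1) := ⟨i, by omega⟩
    obtain ⟨σ, β, hσ⟩ := hQ i' x
    obtain ⟨w₀, hw₀, hmax⟩ := exists_max hv hW (opL σ β (g ^ t))
    simp only [opL_apply] at hmax
    have hxi : x i' = y i' := hx2 i' le_rfl
    refine ⟨Function.update x i' (g ^ t * w₀), ?_, ?_, ?_⟩
    · intro j hj
      by_cases hji : j = i'
      · rw [hji, Function.update_self, pow_succ]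
        exact Submodule.mul_mem_mul (Submodule.pow_mem_pow _ h.gW _) hw₀
      · rw [Function.update_of_ne hji]
        refine hx1 j ?_
        have : (j : ℕ) ≠ i := fun h => hji (Fin.ext h)
        omega
    · intro j hj
      have hji : j ≠ i' := by
        rintro rfl
        change i + 1 ≤ i at hj
        omega
      rw [Function.update_of_ne hji]
      exact hx2 j (by omega)
    · refine hx3.trans ?_
      have h1 : v (Q x) ≤ ν ^ t * v (Q (Function.update x i' (g ^ t * w₀))) := by
        have h2 : Q x = σ (y i') + β * y i' := by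
          rw [← hσ, ← hxi, Function.update_eq_self]
        rw [h2, hσ]
        exact h.gain σ β hmax _ (hy i')
      calc ν ^ (i * t) * v (Q x) ≤ ν ^ (i * t) * (ν ^ t * v (Q (Function.update x i' (g ^ t * w₀))))
            := mul_le_mul' le_rfl h1
        _ = ν ^ ((i + 1) * t) * v (Q (Function.update x i' (g ^ t * w₀))) := by
            rw [← mul_assoc, ← pow_add]
            congr 2
            ring

/-- The peeling of the slots `0, .., i - 1`. -/
theorem peel_aux (h : PD v W W' g z ν) (hv : ∀ c : k, c ≠ 0 → v (algebraMap k K c) = 1)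
    (hW : W.FG) {n t : ℕ} (Q : MultilinearMap k (fun _ : Fin (n + 1) => K) K)
    (hQ : FirstOrder Q) {N : Submodule κ K} (hGA : GA κ k v N)
    {s : ℕ} (hs : 0 < s) (e : Fin s → K) (he : W ^ (t + 1) = Submodule.span k (Set.range e))
    (hN : ∀ u : Fin (n + 1) → Fin s, Q (fun j => e (u j)) ∈ N)
    (L : Fin (n + 1) → IntermediateField κ k) (c : Fin (n + 1) → Fin s → k)
    (hcL : ∀ i j, i < j → ∀ l, c i l ∈ L j) (d : Fin (n + 1) → ℕ)
    (hd : ∀ i, s ≤ Module.finrank (L i) (Submodule.span (L i) (Set.range (c i))) + d i)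
    (hdt : ∀ i, d i + 1 ≤ t) (hchar : ∀ l : ℕ, 0 < l → l ≤ t → (l : k) ≠ 0)
    (i : ℕ) (hi : i ≤ n + 1) :
    ∃ u : Fin (n + 1) → Fin s, ∀ x : Fin (n + 1) → K, (∀ j, x j ∈ W ^ (t + 1)) →
      ν ^ (∑ j : Fin (n + 1), if (j : ℕ) < i then d j + 1 else 0) * v (Q x)
        ≤ v (Q (fun j => if (j : ℕ) < i then ∑ l, algebraMap k K (c j l) * e l else e (u j))) := by
  classical
  have hv1 : ∀ c : k, v (algebraMap k K c) ≤ 1 := by
    intro c
    by_cases hc : c = 0
    · rw [hc, map_zero, map_zero]; exact zero_le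
    · exact (hv c hc).le
  have : Nonempty (Fin s) := ⟨⟨0, hs⟩⟩
  induction i with
  | zero =>
    obtain ⟨u, -, hu⟩ := Finset.exists_max_image (Finset.univ : Finset (Fin (n + 1) → Fin s))
      (fun u => v (Q (fun j => e (u j)))) Finset.univ_nonempty
    refine ⟨u, fun x hx => ?_⟩
    simp only [Nat.not_lt_zero, if_false, Finset.sum_const_zero, pow_zero, one_mul]
    have h1 : ∀ j, ∃ a : Fin s → k, ∑ l, algebraMap k K (a l) * e l = x j := by
      intro j
      have h2 := hx j
      rw [he, Submodule.mem_span_range_iff_exists_fun] at h2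
      obtain ⟨a, ha⟩ := h2
      refine ⟨a, ?_⟩
      rw [← ha]
      refine Finset.sum_congr rfl fun j _ => ?_
      rw [Algebra.smul_def]
    choose a ha using h1
    have h2 : x = fun j => ∑ l, algebraMap k K (a j l) * e l := by
      funext j
      rw [ha]
    rw [h2, expand]
    refine v.map_sum_le fun r _ => ?_
    rw [map_mul]
    exact le_trans (mul_le_of_le_one_left' (hv1 _)) (hu r (Finset.mem_univ _))
  | succ i ih =>
    obtain ⟨u, hu⟩ := ih (by omega)
    refine ⟨u, fun x hx => ?_⟩
    let i' : Fin (n + 1) := ⟨i, by omega⟩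
    set y : Fin (n + 1) → K :=
      fun j => if (j : ℕ) < i then ∑ l, algebraMap k K (c j l) * e l else e (u j) with hy
    obtain ⟨σ, β, hσ⟩ := hQ i' y
    have hyi : y i' = e (u i') := by
      simp only [hy, i', lt_irrefl, if_false]
    have h1 : Q y = σ (e (u i')) + β * e (u i') := by
      rw [← hσ, ← hyi, Function.update_eq_self]
    have h2 : (fun j : Fin (n + 1) => if (j : ℕ) < i + 1 then
        ∑ l, algebraMap k K (c j l) * e l else e (u j))
        = Function.update y i' (∑ l, algebraMap k K (c i' l) * e l) := by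
      funext j
      by_cases hji : j = i'
      · rw [hji, Function.update_self]
        simp only [i', Nat.lt_succ_self, if_true]
      · rw [Function.update_of_ne hji]
        have h3 : (j : ℕ) ≠ i := fun h => hji (Fin.ext h)
        have h4 : ((j : ℕ) < i + 1) ↔ ((j : ℕ) < i) := by omega
        simp only [hy, h4]
    rw [h2, hσ]
    have hsum : (∑ j : Fin (n + 1), if (j : ℕ) < i + 1 then d j + 1 else 0)
        = (∑ j : Fin (n + 1), if (j : ℕ) < i then d j + 1 else 0) + (d i' + 1) := by
      rw [← Finset.add_sum_erase _ _ (Finset.mem_univ i'),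
        ← Finset.add_sum_erase _ (fun j : Fin (n + 1) => if (j : ℕ) < i then d j + 1 else 0)
          (Finset.mem_univ i')]
      have h5 : ∑ j ∈ Finset.univ.erase i', (if (j : ℕ) < i + 1 then d j + 1 else 0)
          = ∑ j ∈ Finset.univ.erase i', (if (j : ℕ) < i then d j + 1 else 0) := by
        refine Finset.sum_congr rfl fun j hj => ?_
        have h3 : (j : ℕ) ≠ i := fun h => (Finset.mem_erase.1 hj).1 (Fin.ext h)
        have h4 : ((j : ℕ) < i + 1) ↔ ((j : ℕ) < i) := by omega
        simp only [h4]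
      rw [h5]
      simp only [i', Nat.lt_succ_self, if_true, lt_irrefl, if_false]
      omega
    have hmemN : ∀ j, σ (e j) + β * e j ∈ Submodule.span (L i') (N : Set K) := by
      intro j
      rw [← hσ]
      have h6 : Function.update y i' (e j) = fun j' : Fin (n + 1) => ∑ l, algebraMap k K
          ((if (j' : ℕ) < i then c j' else if j' = i' then Pi.single j 1 else
            Pi.single (u j') 1) l) * e l := by
        funext j'
        by_cases hji : j' = i'
        · rw [hji, Function.update_self]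
          simp only [i', lt_irrefl, if_false, if_true]
          rw [Finset.sum_eq_single j]
          · rw [Pi.single_eq_same, map_one, one_mul]
          · intro l _ hl
            rw [Pi.single_eq_of_ne hl, map_zero, zero_mul]
          · intro hj
            exact absurd (Finset.mem_univ _) hj
        · rw [Function.update_of_ne hji]
          by_cases hj' : (j' : ℕ) < i
          · simp only [hy, hj', if_true]
          · simp only [hy, hj', if_false, hji]
            rw [Finset.sum_eq_single (u j')]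
            · rw [Pi.single_eq_same, map_one, one_mul]
            · intro l _ hl
              rw [Pi.single_eq_of_ne hl, map_zero, zero_mul]
            · intro hj
              exact absurd (Finset.mem_univ _) hj
      rw [h6]
      refine expand_mem Q e hN (L i') _ ?_
      intro j' l
      by_cases hj' : (j' : ℕ) < i
      · simp only [hj', if_true]
        exact ⟨⟨_, hcL j' i' hj' l⟩, rfl⟩
      · simp only [hj', if_false]
        split_ifs
        · by_cases hl : l = j
          · rw [hl, Pi.single_eq_same]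
            exact one_mem _
          · rw [Pi.single_eq_of_ne hl]
            exact zero_mem _
        · by_cases hl : l = u j'
          · rw [hl, Pi.single_eq_same]
            exact one_mem _
          · rw [Pi.single_eq_of_ne hl]
            exact zero_mem _
    have h7 := slot h hv hW σ β (hGA.span hv1 (L i')) e he.le hmemN (c i') (d i') (hd i') (hdt i')
      hchar (e (u i')) (he ▸ Submodule.subset_span ⟨_, rfl⟩)
    rw [hsum, pow_add, mul_comm (ν ^ _) (ν ^ (d i' + 1)), mul_assoc]
    refine le_trans (mul_le_mul' le_rfl (hu x hx)) ?_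
    rw [h1]
    exact h7

/-- PEELING. -/
theorem peel (h : PD v W W' g z ν) (hv : ∀ c : k, c ≠ 0 → v (algebraMap k K c) = 1)
    (hW : W.FG) {n t : ℕ} (Q : MultilinearMap k (fun _ : Fin (n + 1) => K) K)
    (hQ : FirstOrder Q) {N : Submodule κ K} (hGA : GA κ k v N)
    {s : ℕ} (hs : 0 < s) (e : Fin s → K) (he : W ^ (t + 1) = Submodule.span k (Set.range e))
    (hN : ∀ u : Fin (n + 1) → Fin s, Q (fun j => e (u j)) ∈ N)
    (L : Fin (n + 1) → IntermediateField κ k) (c : Fin (n + 1) → Fin s → k)
    (hcL : ∀ i j, i < j → ∀ l, c i l ∈ L j) (d : Fin (n + 1) → ℕ)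
    (hd : ∀ i, s ≤ Module.finrank (L i) (Submodule.span (L i) (Set.range (c i))) + d i)
    (hdt : ∀ i, d i + 1 ≤ t) (hsum : ∑ i, (d i + 1) ≤ (n + 1) * t)
    (hchar : ∀ l : ℕ, 0 < l → l ≤ t → (l : k) ≠ 0)
    (y : Fin (n + 1) → K) (hy : ∀ j, y j ∈ W' ^ (t + 1)) :
    v (Q y) ≤ v (Q (fun j => ∑ l, algebraMap k K (c j l) * e l)) := by
  classical
  have hv1 : ∀ c : k, v (algebraMap k K c) ≤ 1 := by
    intro c
    by_cases hc : c = 0
    · rw [hc, map_zero, map_zero]; exact zero_le
    · exact (hv c hc).le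
  obtain ⟨x, hx1, -, hx3⟩ := gain_multi h hv1 hW Q hQ y hy (n + 1) le_rfl
  obtain ⟨u, hu⟩ := peel_aux h hv hW Q hQ hGA hs e he hN L c hcL d hd hdt hchar (n + 1) le_rfl
  have h1 := hu x (fun j => hx1 j j.2)
  have h2 : ∀ j : Fin (n + 1), (j : ℕ) < n + 1 := fun j => j.2
  simp only [h2, if_true] at h1
  refine hx3.trans (le_trans (mul_le_mul' ?_ le_rfl) h1)
  exact pow_le_pow_right_of_le_one' h.ν1.le hsum

end Multi

end Pool.Agent.TG9
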