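import Pool.Agent.Lib.TG9_h65.Count
import Pool.Agent.Lib.TG9.Defs

/-!
# TANK G, track BC9: the row `Good.peel`
-/

set_option autoImplicit false

namespace Pool.Agent.TG9

open Pool.Agent.TG (Ov ZDim IsMin IsModel)
open Pool.Agent.TG15 (Gt Tp hx)
open Pool.Agent.TGCh (rk)
open Pool.Agent.TG9h22 (RInd val_const)
open MvPolynomial (aeval)

universe u

section Aux

variable {k K : Type u} [Field k] [Field K] [Algebra k K]

theorem IsMin.val_le {V : ValuationSubring K} {P : Submodule k K} {f w : K} (h : IsMin V P f)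
    (hw : w ∈ P) : V.valuation w ≤ V.valuation f := by
  have h1 := (V.valuation_le_one_iff _).2 (h.div w hw)
  rw [map_div₀] at h1
  exact (div_le_one₀ (zero_lt_iff.2 ((Valuation.ne_zero_iff _).2 h.ne))).1 h1

theorem isMin_of_val {V : ValuationSubring K} {P : Submodule k K} {f : K} (hf : f ∈ P)
    (h0 : f ≠ 0) (h : ∀ w ∈ P, V.valuation w ≤ V.valuation f) : IsMin V P f := by
  refine ⟨hf, h0, fun w hw => (V.valuation_le_one_iff _).1 ?_⟩
  rw [map_div₀]
  exact div_le_one_of_le₀ (h w hw) zero_le

/-- A minimal element of a spanning family. -/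
theorem exists_min_fam {V : ValuationSubring K} (hV : Ov k V) {ι : Type*} [Fintype ι] (b : ι → K)
    {P : Submodule k K} (hb : Submodule.span k (Set.range b) = P) (hP : P ≠ ⊥) :
    ∃ i, IsMin V P (b i) := by
  classical
  have h1 : ∃ x ∈ Finset.univ.image b, x ≠ 0 := by
    by_contra h
    push Not at h
    apply hP
    rw [← hb, Submodule.span_eq_bot]
    rintro _ ⟨i, rfl⟩
    exact h _ (Finset.mem_image_of_mem _ (Finset.mem_univ i))
  obtain ⟨f, hf, hmin⟩ := Pool.Agent.TG.exists_isMin_mem hV (Finset.univ.image b) h1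
  obtain ⟨i, -, rfl⟩ := Finset.mem_image.1 hf
  refine ⟨i, ?_⟩
  rwa [Finset.coe_image, Finset.coe_univ, Set.image_univ, hb] at hmin

/-- The hyperplane `hx V W` in coordinates. -/
theorem hx_span {V : ValuationSubring K} (hV : Ov k V) {s : ℕ} (b : Fin s → K)
    {W : Submodule k K} (hb : Submodule.span k (Set.range b) = W) {i₀ : Fin s}
    (hi : IsMin V W (b i₀)) (a : Fin s → k)
    (ha : ∀ i, V.valuation (b i / b i₀ - algebraMap k K (a i)) < 1) :
    hx V W = Submodule.span k (Set.range fun i => b i - a i • b i₀) := by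
  have hv0 : V.valuation (b i₀) ≠ 0 := (Valuation.ne_zero_iff _).2 hi.ne
  have hbW : ∀ i, b i ∈ W := fun i => hb ▸ Submodule.subset_span ⟨i, rfl⟩
  apply le_antisymm
  · rintro w ⟨hwW, hwG⟩
    have h1 := hwW
    rw [← hb, Submodule.mem_span_range_iff_exists_fun] at h1
    obtain ⟨c, hc⟩ := h1
    have h2 : w = ∑ i, c i • (b i - a i • b i₀) + (∑ i, c i * a i) • b i₀ := by
      rw [← hc, Finset.sum_smul, ← Finset.sum_add_distrib]
      refine Finset.sum_congr rfl fun i _ => ?_
      rw [smul_sub, mul_smul]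
      ring
    have h3 : ∑ i, c i * a i = 0 := by
      by_contra h0
      have h4 : V.valuation (∑ i, c i • (b i - a i • b i₀)) < V.valuation (b i₀) := by
        refine V.valuation.map_sum_lt hv0 fun i _ => ?_
        rw [Algebra.smul_def, map_mul]
        have h5 : b i - a i • b i₀ = (b i / b i₀ - algebraMap k K (a i)) * b i₀ := by
          rw [sub_mul, div_mul_cancel₀ _ hi.ne, Algebra.smul_def]
        rw [h5, map_mul]
        refine lt_of_le_of_lt (mul_le_of_le_one_left' ((V.valuation_le_one_iff _).2 (hV _))) ?_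
        exact mul_lt_of_lt_one_left (zero_lt_iff.2 hv0) (ha i)
      have h5 : V.valuation ((∑ i, c i * a i) • b i₀) = V.valuation (b i₀) := by
        rw [Algebra.smul_def, map_mul, val_const hV h0, one_mul]
      have h6 : V.valuation w = V.valuation (b i₀) := by
        rw [h2, Valuation.map_add_eq_of_lt_right _ (by rw [h5]; exact h4), h5]
      rcases hwG with rfl | ⟨y, hy, hlt⟩
      · rw [map_zero] at h6
        exact hv0 h6.symm
      · rw [h6] at hlt
        exact absurd hlt (not_lt.2 (IsMin.val_le hi hy))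
    rw [h2, h3, zero_smul, add_zero]
    exact Submodule.sum_mem _ fun i _ => Submodule.smul_mem _ _ (Submodule.subset_span ⟨i, rfl⟩)
  · rw [Submodule.span_le]
    rintro _ ⟨i, rfl⟩
    refine ⟨W.sub_mem (hbW i) (W.smul_mem _ (hbW i₀)), Or.inr ⟨b i₀, hbW i₀, ?_⟩⟩
    have h5 : b i - a i • b i₀ = (b i / b i₀ - algebraMap k K (a i)) * b i₀ := by
      rw [sub_mul, div_mul_cancel₀ _ hi.ne, Algebra.smul_def]
    change V.valuation (b i - a i • b i₀) < V.valuation (b i₀)
    rw [h5, map_mul]
    exact mul_lt_of_lt_one_left (zero_lt_iff.2 hv0) (ha i)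

theorem span_mul_range {ι κ : Type*} (b : ι → K) (c : κ → K) :
    Submodule.span k (Set.range b) * Submodule.span k (Set.range c)
      = Submodule.span k (Set.range fun p : ι × κ => b p.1 * c p.2) := by
  rw [Submodule.span_mul_span]
  congr 1
  ext x
  simp only [Set.mem_mul, Set.mem_range, Prod.exists]
  constructor
  · rintro ⟨_, ⟨i, rfl⟩, _, ⟨j, rfl⟩, rfl⟩
    exact ⟨i, j, rfl⟩
  · rintro ⟨i, j, rfl⟩
    exact ⟨_, ⟨i, rfl⟩, _, ⟨j, rfl⟩, rfl⟩

end Aux

section Mem

variable {k₁ k K : Type u} [Field k₁] [Field k] [Field K] [Algebra k₁ k] [Algebra k K]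
  [Algebra k₁ K] [IsScalarTower k₁ k K]

theorem isAlg_mono {A : Type*} [CommRing A] (R S : Subring A) (h : R ≤ S) {x : A}
    (hx : IsAlgebraic R x) : IsAlgebraic S x := by
  obtain ⟨p, hp, hpx⟩ := hx
  refine ⟨p.map (Subring.inclusion h), ?_, ?_⟩
  · intro h0
    apply hp
    have hinj : Function.Injective (Subring.inclusion h) := fun a b hab =>
      Subtype.ext (congrArg (fun z : S => (z : A)) hab)
    exact Polynomial.map_injective _ hinj (h0.trans (Polynomial.map_zero _).symm)
  · rw [Polynomial.aeval_def, Polynomial.eval₂_map]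
    exact hpx

omit [Algebra k K] [IsScalarTower k₁ k K] [Field k] [Algebra k₁ k] in
theorem cl_le_cl {κ : Type u} [Field κ] [Algebra k₁ κ] [Algebra κ K] [IsScalarTower k₁ κ K]
    {X : Set K} {x : K} (hx : x ∈ TGCh.cl k₁ X) : x ∈ TGCh.cl κ X := by
  have hx' : IsAlgebraic (Algebra.adjoin k₁ X) x := TGCh.mem_cl_iff.1 hx
  refine TGCh.mem_cl_iff.2 ?_
  have hle : ∀ b ∈ Algebra.adjoin k₁ X, b ∈ Algebra.adjoin κ X := by
    intro b hb
    induction hb using Algebra.adjoin_induction with
    | mem x hx => exact Algebra.subset_adjoin hx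
    | algebraMap c =>
      rw [IsScalarTower.algebraMap_apply k₁ κ K]
      exact (Algebra.adjoin κ X).algebraMap_mem _
    | add a b _ _ h1 h2 => exact add_mem h1 h2
    | mul a b _ _ h1 h2 => exact mul_mem h1 h2
  have h3 := isAlg_mono (Algebra.adjoin k₁ X).toSubring (Algebra.adjoin κ X).toSubring
    (fun b hb => hle b hb) (x := x) hx'
  exact h3

/-- Exchange in a model: among the ratios `e p / e p₀` of a spanning family there are as many
residually independent elements as among all ratios. -/
theorem exch_fam {v : ValuationSubring K} (hv : Ov k v) {ι : Type*} (e : ι → K)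
    {H : Submodule k K} (he : Submodule.span k (Set.range e) = H) {p₀ : ι}
    (hp₀ : IsMin v H (e p₀)) {H' : Submodule k K} (hH' : H' ≤ H) {g₀ : K} (hg₀ : IsMin v H' g₀)
    (hgv : v.valuation g₀ = v.valuation (e p₀)) {m : ℕ} (w : Fin m → K) (hw : ∀ i, w i ∈ H')
    (hind : RInd k v (fun i => w i / g₀)) :
    ∃ p : Fin m → ι, RInd k v (fun i => e (p i) / e p₀) := by
  let E : Set K := Set.range fun p => e p / e p₀
  have hEv : ∀ x ∈ E, x ∈ v := by
    rintro _ ⟨p, rfl⟩
    exact hp₀.div _ (he ▸ Submodule.subset_span ⟨p, rfl⟩)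
  have hmem : ∀ x ∈ H, x / e p₀ ∈ Algebra.adjoin k E := by
    intro x hx
    rw [← he] at hx
    induction hx using Submodule.span_induction with
    | mem x hx =>
      obtain ⟨p, rfl⟩ := hx
      exact Algebra.subset_adjoin ⟨p, rfl⟩
    | zero => rw [zero_div]; exact zero_mem _
    | add x y _ _ hx hy => rw [add_div]; exact add_mem hx hy
    | smul a x _ hx => rw [smul_div_assoc]; exact Subalgebra.smul_mem _ hx a
  obtain ⟨y, hyE, hy⟩ := exists_rind_div hv hEv (y := fun i => w i / g₀) (by
    intro i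
    refine ⟨w i / e p₀, hmem _ (hH' (hw i)), g₀ / e p₀, hmem _ (hH' hg₀.mem), ?_, ?_⟩
    · rw [map_div₀, hgv, div_self]
      exact (Valuation.ne_zero_iff _).2 hp₀.ne
    · have h1 := hp₀.ne
      have h2 := hg₀.ne
      field_simp) hind
  choose p hp using hyE
  refine ⟨p, ?_⟩
  have : (fun i => e (p i) / e p₀) = y := funext hp
  rw [this]
  exact hy

/-- Genericity with defect `0`. -/
theorem generic_ge {κ : Type u} [Field κ] [Algebra κ k] [Algebra κ K] [IsScalarTower κ k K]
    {Γ₀ : Type*} [LinearOrderedCommGroupWithZero Γ₀] {v : Valuation K Γ₀}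
    (hv : ∀ c : k, v (algebraMap k K c) ≤ 1) {N : Submodule κ K} (hGA : GA κ k v N) {n s : ℕ}
    (Q : MultilinearMap k (fun _ : Fin (n + 1) => K) K) (b : Fin s → K)
    (hQ : ∀ r : Fin (n + 1) → Fin s, Q (fun j => b (r j)) ∈ N) (u : Fin (n + 1) → Fin s → k)
    (hu : AlgebraicIndependent κ (fun p : Fin (n + 1) × Fin s => u p.1 p.2))
    (x : Fin (n + 1) → K) (hx : ∀ j, x j ∈ Submodule.span k (Set.range b)) :
    v (Q x) ≤ v (Q fun j => ∑ a, algebraMap k K (u j a) * b a) := by
  classical
  have h1 : ∀ j, ∃ c : Fin s → k, ∑ a, algebraMap k K (c a) * b a = x j := by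
    intro j
    obtain ⟨c, hc⟩ := (Submodule.mem_span_range_iff_exists_fun k).1 (hx j)
    refine ⟨c, ?_⟩
    rw [← hc]
    exact Finset.sum_congr rfl fun a _ => (Algebra.smul_def _ _).symm
  choose c hc using h1
  have h2 : x = fun j => ∑ a, algebraMap k K (c j a) * b a := funext fun j => (hc j).symm
  have hli : LinearIndependent κ (fun r : Fin (n + 1) → Fin s => ∏ j, u j (r j)) := by
    have h3 : LinearIndependent κ (fun r : Fin (n + 1) → Fin s =>
        (MvPolynomial.monomial (∑ j, Finsupp.single ((j, r j) : Fin (n + 1) × Fin s) 1) (1 : κ))) := by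
      refine (MvPolynomial.basisMonomials _ κ).linearIndependent.comp
        (fun r : Fin (n + 1) → Fin s => ∑ j, Finsupp.single ((j, r j) : Fin (n + 1) × Fin s) 1) ?_
      intro r r' hrr
      funext j
      have h4 := DFunLike.congr_fun hrr (j, r j)
      simp only [Finsupp.coe_finsetSum, Finset.sum_apply, Finsupp.single_apply, Prod.mk.injEq]
        at h4
      by_contra hne
      rw [Finset.sum_eq_single j (fun i _ hi => by simp [hi]) (by simp),
        Finset.sum_eq_single j (fun i _ hi => by simp [hi]) (by simp)] at h4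
      simp only [true_and, and_self, if_true] at h4
      rw [if_neg (fun h => hne h.symm)] at h4
      exact one_ne_zero h4
    have h5 := h3.map' (aeval (fun p : Fin (n + 1) × Fin s => u p.1 p.2)).toLinearMap
      (LinearMap.ker_eq_bot.2 hu)
    refine Eq.subst (motive := fun g => LinearIndependent κ g) ?_ h5
    funext r
    change aeval (fun p : Fin (n + 1) × Fin s => u p.1 p.2)
      (MvPolynomial.monomial (∑ j, Finsupp.single ((j, r j) : Fin (n + 1) × Fin s) 1) (1 : κ)) = _
    rw [MvPolynomial.aeval_monomial, map_one, one_mul]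
    rw [← Finsupp.prod_finsetSum_index (fun a => pow_zero _) (fun a b c => pow_add _ _ _)]
    refine Finset.prod_congr rfl fun j _ => ?_
    rw [Finsupp.prod_single_index (by simp), pow_one]
  have h6 : ∀ r : Fin (n + 1) → Fin s, v (Q fun j => b (r j))
      ≤ v (Q fun j => ∑ a, algebraMap k K (u j a) * b a) := by
    intro r
    rw [expand]
    exact hGA.fintype (fun r : Fin (n + 1) → Fin s => ∏ j, u j (r j))
      (fun r => Q fun j => b (r j)) hli hQ r
  rw [h2, expand]
  refine v.map_sum_le fun r _ => ?_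
  rw [map_mul]
  exact (mul_le_of_le_one_left' (hv _)).trans (h6 r)

end Mem

end Pool.Agent.TG9
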