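import Pool.Agent.Lib.TG9_h65.PeelGood

/-!
# TANK G, track BC9: the row `Good.peel`, assembly
-/

set_option autoImplicit false

namespace Pool.Agent.TG9

open Pool.Agent.TG (Ov ZDim IsMin IsModel)
open Pool.Agent.TG15 (Gt Tp hx)
open Pool.Agent.TGCh (rk)
open Pool.Agent.TG9h22 (RInd val_const)

universe u

variable {k₁ k K : Type u} [Field k₁] [Field k] [Field K] [Algebra k₁ k] [Algebra k K]
  [Algebra k₁ K] [IsScalarTower k₁ k K]

theorem clF_algebraic : Algebra.IsAlgebraic k₁ (clF k₁ (∅ : Set k)) := by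
  constructor
  rintro ⟨x, hx⟩
  have h1 : x ∈ TGCh.cl k₁ (∅ : Set k) := hx
  rw [TGCh.mem_cl_iff, Algebra.adjoin_empty] at h1
  have h2 : IsAlgebraic k₁ x := Subalgebra.isAlgebraic_of_isAlgebraic_bot h1
  have h3 : IsAlgebraic k₁ (algebraMap (clF k₁ (∅ : Set k)) k ⟨x, hx⟩) := h2
  rwa [isAlgebraic_algebraMap_iff (algebraMap (clF k₁ (∅ : Set k)) k).injective] at h3

/-- Case B1: the valuation `v` is defined over `k₁`. -/
theorem peel_case1 [IsAlgClosed k] {n : ℕ} (hn : 0 < n) {X : Set K} (hX : X.encard ≤ n)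
    {L W : Submodule k K} (hL : IsModel L) (hW : IsModel W) {t : ℕ}
    {sW sL s : ℕ} (bW : Fin sW → K) (hbW : Submodule.span k (Set.range bW) = W)
    (hbWX : ∀ i, bW i ∈ TGCh.cl k₁ X) (bL : Fin sL → K)
    (hbL : Submodule.span k (Set.range bL) = L) (hbLX : ∀ i, bL i ∈ TGCh.cl k₁ X)
    (b : Fin s → K) (hb : Submodule.span k (Set.range b) = (W * L) ^ t)
    (Q : MultilinearMap k (fun _ : Fin (n + 1) => K) K)
    (hQX : ∀ r : Fin (n + 1) → Fin s, Q (fun j => b (r j)) ∈ TGCh.cl k₁ X)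
    {τ : K} (hτ0 : τ ≠ 0) (hτX : τ ∈ TGCh.cl k₁ X) (N : ℕ)
    (u : Fin (n + 1) → Fin s → k)
    (hu : AlgebraicIndependent k₁ (fun p : Fin (n + 1) × Fin s => u p.1 p.2))
    {W' : Submodule k K} (hWW : W' ≤ W) {v : ValuationSubring K} (hv : Dv n (W' * L) v)
    (hT : Tp L N τ W v) (hmin : ∃ w ∈ W', IsMin v W w)
    (g : Fin (n + 1) → K) (hg : ∀ j, g j ∈ (W * L) ^ t) :
    v.valuation (Q g) ≤ v.valuation (Q fun j => ∑ a, algebraMap k K (u j a) * b a) := by
  classical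
  obtain ⟨hvk, hvtop, g₀, hg₀, w, hw, hind⟩ := hv
  set κ := clF k₁ (∅ : Set k) with hκ
  have hvle : ∀ c : k, v.valuation (algebraMap k K c) ≤ 1 := fun c =>
    (v.valuation_le_one_iff _).2 (hvk c)
  obtain ⟨i₁, hi₁⟩ := exists_min_fam hvk bW hbW hW.ne
  obtain ⟨j₁, hj₁⟩ := exists_min_fam hvk bL hbL hL.ne
  have hHmin : IsMin v (W * L) (bW i₁ * bL j₁) := hi₁.mul hj₁
  let e : Fin sW × Fin sL → K := fun p => bW p.1 * bL p.2
  have he : Submodule.span k (Set.range e) = W * L := by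
    rw [← hbW, ← hbL, span_mul_range]
  have hH' : W' * L ≤ W * L := mul_le_mul' hWW le_rfl
  have hgv : v.valuation g₀ = v.valuation (e (i₁, j₁)) := by
    apply le_antisymm
    · exact IsMin.val_le hHmin (hH' hg₀.mem)
    · obtain ⟨w₁, hw₁, hw₁m⟩ := hmin
      have h1 : IsMin v (W * L) (w₁ * bL j₁) := hw₁m.mul hj₁
      refine (IsMin.val_le h1 hHmin.mem).trans (IsMin.val_le hg₀ ?_)
      exact Submodule.mul_mem_mul hw₁ hj₁.mem
  obtain ⟨p, hp⟩ := exch_fam hvk e he (p₀ := (i₁, j₁)) hHmin hH' hg₀ hgv w hw hind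
  have heX : ∀ q, e q ∈ TGCh.cl k₁ X := fun q => TGCh.mul_mem_cl (hbWX _) (hbLX _)
  -- an element of positive value
  obtain ⟨y, hy, hyv⟩ : ∃ y ∈ L ^ N, v.valuation (τ * bW i₁) < v.valuation y := by
    rcases hT.2 (bW i₁) hi₁.mem with h | h
    · exact absurd h (mul_ne_zero hτ0 hi₁.ne)
    · exact h
  have hLN : v.valuation y ≤ v.valuation (bL j₁ ^ N) := IsMin.val_le (hj₁.pow hvk N) hy
  have hGA := ga_of_rank (κ := κ) hvk (m := n - 1) (fun i => e (p i) / e (i₁, j₁)) hp (X := X)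
    (by
      have h1 : n - 1 + 1 = n := by omega
      have h2 : ((n - 1 : ℕ) : ℕ∞) + 1 = (n : ℕ∞) := by exact_mod_cast h1
      rw [h2]
      exact hX)
    (fun i => cl_le_cl (k₁ := k₁) (TGCh.div_mem_cl (heX _) (heX _)))
    (π := τ * bW i₁ / bL j₁ ^ N)
    (cl_le_cl (k₁ := k₁) (TGCh.div_mem_cl (TGCh.mul_mem_cl hτX (hbWX _))
      (by
        have h1 : bL j₁ ^ N ∈ clF k₁ X := pow_mem (show bL j₁ ∈ clF k₁ X from hbLX j₁) N
        exact h1)))
    (div_ne_zero (mul_ne_zero hτ0 hi₁.ne) (pow_ne_zero _ hj₁.ne))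
    (by
      rw [map_div₀, div_lt_one₀ (zero_lt_iff.2 ((Valuation.ne_zero_iff _).2
        (pow_ne_zero _ hj₁.ne)))]
      exact lt_of_lt_of_le hyv hLN)
  have hu' : AlgebraicIndependent κ (fun p : Fin (n + 1) × Fin s => u p.1 p.2) := by
    have := clF_algebraic (k₁ := k₁) (k := k)
    exact hu.extendScalars κ
  exact generic_ge hvle hGA Q b (fun r => cl_le_cl (k₁ := k₁) (hQX r)) u hu' g
    (fun j => by rw [hb]; exact hg j)

/-- Case B2: `v` is centred at the point. -/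
theorem peel_case2 [IsAlgClosed k] {n : ℕ} (hn : 0 < n) {X : Set K} (hX : X.encard ≤ n)
    {L W : Submodule k K} (hL : IsModel L) (hW : IsModel W) {t : ℕ} (ht : 2 * n + 2 ≤ t)
    (hchar : ∀ l : ℕ, 0 < l → l ≤ t → (l : k) ≠ 0)
    {sW sL s : ℕ} (bW : Fin sW → K) (hbW : Submodule.span k (Set.range bW) = W)
    (hbWX : ∀ i, bW i ∈ TGCh.cl k₁ X) (bL : Fin sL → K)
    (hbL : Submodule.span k (Set.range bL) = L) (hbLX : ∀ i, bL i ∈ TGCh.cl k₁ X)
    (b : Fin s → K) (hb : Submodule.span k (Set.range b) = (W * L) ^ (t + 1))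
    (Q : MultilinearMap k (fun _ : Fin (n + 1) => K) K) (hQ : FirstOrder Q)
    (hQX : ∀ r : Fin (n + 1) → Fin s, Q (fun j => b (r j)) ∈ TGCh.cl k₁ X)
    (u : Fin (n + 1) → Fin s → k)
    (hu : AlgebraicIndependent k₁ (fun p : Fin (n + 1) × Fin s => u p.1 p.2))
    {V : ValuationSubring K} (hV : ZDim k V) {v : ValuationSubring K}
    (hv : Dv n (hx V W * L) v) (hmin : ¬ ∃ w ∈ hx V W, IsMin v W w)
    (g : Fin (n + 1) → K) (hg : ∀ j, g j ∈ (hx V W * L) ^ (t + 1)) :
    v.valuation (Q g) ≤ v.valuation (Q fun j => ∑ a, algebraMap k K (u j a) * b a) := by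
  classical
  obtain ⟨hvk, hvtop, g₀, hg₀, w, hw, hind⟩ := hv
  have hWx : hx V W ≤ W := fun x hx => hx.1
  -- the point
  obtain ⟨i₀, hi₀⟩ := exists_min_fam hV.ov bW hbW hW.ne
  choose a ha using fun i => hV.res (bW i / bW i₀) (hi₀.div _ (hbW ▸ Submodule.subset_span ⟨i, rfl⟩))
  have hspan := hx_span hV.ov bW hbW hi₀ a ha
  have hrk : rk k₁ (Set.range a) ≤ (n : ℕ∞) := by
    refine (rk_le_map (K := K) (Set.range a)).trans ?_
    have h1 := (TGCh.rk_residues (k₁ := k₁) hV.ov (C := ∅) (X := X) (by simp)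
      (y := fun i => bW i / bW i₀) (c := a) ha (fun i => by
        rw [Set.empty_union]
        exact TGCh.div_mem_cl (hbWX _) (hbWX _))).1
    rw [Set.empty_union] at h1
    have h2 : rk k₁ (∅ : Set K) = 0 := Matroid.eRk_empty _
    rw [h2, zero_add] at h1
    have h3 : algebraMap k K '' Set.range a = Set.range fun i => algebraMap k K (a i) := by
      rw [← Set.range_comp]
      rfl
    rw [h3]
    exact h1.trans hX
  set κ := clF k₁ (Set.range a) with hκ
  have hvc : ∀ c : k, c ≠ 0 → v.valuation (algebraMap k K c) = 1 := fun c hc => val_const hvk hc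
  have hclκ : ∀ x ∈ TGCh.cl k₁ X, x ∈ TGCh.cl κ X := fun x hx => cl_le_cl (k₁ := k₁) hx
  have haκ : ∀ i, algebraMap k K (a i) ∈ TGCh.cl κ X := by
    intro i
    have h1 : a i ∈ κ := TGCh.subset_cl _ ⟨i, rfl⟩
    exact (clF κ X).algebraMap_mem ⟨a i, h1⟩
  -- the spanning families
  let e : Fin sW × Fin sL → K := fun p => bW p.1 * bL p.2
  have he : Submodule.span k (Set.range e) = W * L := by
    rw [← hbW, ← hbL, span_mul_range]
  let e' : Fin sW × Fin sL → K := fun p => (bW p.1 - a p.1 • bW i₀) * bL p.2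
  have he' : Submodule.span k (Set.range e') = hx V W * L := by
    rw [hspan, ← hbL, span_mul_range]
  have hH'ne : hx V W * L ≠ ⊥ := by
    intro h
    have := hg₀.mem
    rw [h, Submodule.mem_bot] at this
    exact hg₀.ne this
  obtain ⟨i₁, hi₁⟩ := exists_min_fam hvk bW hbW hW.ne
  obtain ⟨j₁, hj₁⟩ := exists_min_fam hvk bL hbL hL.ne
  obtain ⟨p', hp'⟩ := exists_min_fam hvk e' he' hH'ne
  have hH : IsMin v (W * L) (bW i₁ * bL j₁) := hi₁.mul hj₁
  have hlt : v.valuation (e' p') < v.valuation (bW i₁ * bL j₁) := by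
    change v.valuation ((bW p'.1 - a p'.1 • bW i₀) * bL p'.2) < _
    rw [map_mul, map_mul]
    have h1 : bW p'.1 - a p'.1 • bW i₀ ∈ hx V W := by
      rw [hspan]
      exact Submodule.subset_span ⟨_, rfl⟩
    have h2 : v.valuation (bW p'.1 - a p'.1 • bW i₀) < v.valuation (bW i₁) := by
      by_contra hcon
      rw [not_lt] at hcon
      apply hmin
      refine ⟨_, h1, isMin_of_val (hWx h1) ?_ fun w hw => (IsMin.val_le hi₁ hw).trans hcon⟩
      intro h0
      have h3 := hp'.ne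
      apply h3
      change (bW p'.1 - a p'.1 • bW i₀) * bL p'.2 = 0
      rw [h0, zero_mul]
    have h3 : v.valuation (bL p'.2) ≤ v.valuation (bL j₁) :=
      IsMin.val_le hj₁ (hbL ▸ Submodule.subset_span ⟨_, rfl⟩)
    exact mul_lt_mul_of_lt_of_le_of_nonneg_of_pos h2 h3 zero_le
      (zero_lt_iff.2 ((Valuation.ne_zero_iff _).2 hj₁.ne))
  have he'X : ∀ p, e' p ∈ TGCh.cl κ X := by
    intro p
    change (bW p.1 - a p.1 • bW i₀) * bL p.2 ∈ _
    refine TGCh.mul_mem_cl (TGCh.sub_mem_cl (hclκ _ (hbWX _)) ?_) (hclκ _ (hbLX _))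
    rw [Algebra.smul_def]
    exact TGCh.mul_mem_cl (haκ _) (hclκ _ (hbWX _))
  have hgv : v.valuation g₀ = v.valuation (e' p') :=
    le_antisymm (IsMin.val_le hp' hg₀.mem) (IsMin.val_le hg₀ hp'.mem)
  obtain ⟨p, hp⟩ := exch_fam hvk e' he' (p₀ := p') hp' le_rfl hg₀ hgv w hw hind
  have hGA := ga_of_rank (κ := κ) hvk (m := n - 1) (fun i => e' (p i) / e' p') hp (X := X)
    (by
      have h1 : n - 1 + 1 = n := by omega
      have h2 : ((n - 1 : ℕ) : ℕ∞) + 1 = (n : ℕ∞) := by exact_mod_cast h1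
      rw [h2]
      exact hX)
    (fun i => TGCh.div_mem_cl (he'X _) (he'X _))
    (π := e' p' / (bW i₁ * bL j₁))
    (TGCh.div_mem_cl (he'X _) (TGCh.mul_mem_cl (hclκ _ (hbWX _)) (hclκ _ (hbLX _))))
    (div_ne_zero hp'.ne hH.ne)
    (by
      rw [map_div₀, div_lt_one₀ (zero_lt_iff.2 ((Valuation.ne_zero_iff _).2 hH.ne))]
      exact hlt)
  -- the data
  have hv0 : v.valuation (bW i₁ * bL j₁) ≠ 0 := (Valuation.ne_zero_iff _).2 hH.ne
  have hPD : PD v.valuation (W * L) (hx V W * L) (bW i₁ * bL j₁) (e' p')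
      (v.valuation (e' p') / v.valuation (bW i₁ * bL j₁)) := by
    refine ⟨hH.mem, hH.ne, hp'.mem, mul_le_mul' hWx le_rfl, ?_, fun w hw =>
      IsMin.val_le hH hw, fun w hw => ?_, ?_, ?_⟩
    · rw [div_mul_cancel₀ _ hv0]
    · rw [div_mul_cancel₀ _ hv0]
      exact IsMin.val_le hp' hw
    · exact div_pos (zero_lt_iff.2 ((Valuation.ne_zero_iff _).2 hp'.ne)) (zero_lt_iff.2 hv0)
    · rw [div_lt_one₀ (zero_lt_iff.2 hv0)]
      exact hlt
  have hWL : (W * L).FG := Submodule.FG.mul hW.fg hL.fg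
  -- the count
  have hcount := defect_count (Set.range a) hrk u hu
  let r : Fin (n + 1) → ℕ := fun i => Module.finrank (fld (κ := κ) u i)
    (Submodule.span (fld (κ := κ) u i) (Set.range (u i)))
  have hr : ∀ i, r i ≤ s := by
    intro i
    have h1 := finrank_range_le_card (R := fld (κ := κ) u i) (u i)
    rw [Fintype.card_fin] at h1
    exact h1
  have hcount' : (n + 1) * s ≤ n + ∑ i, r i := hcount
  have hd : ∀ i, s - r i ≤ n := by
    intro i
    have h1 : ∑ j, r j ≤ r i + n * s := by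
      rw [← Finset.add_sum_erase _ _ (Finset.mem_univ i)]
      refine Nat.add_le_add_left ?_ _
      refine (Finset.sum_le_card_nsmul _ _ s fun j _ => hr j).trans ?_
      rw [Finset.card_erase_of_mem (Finset.mem_univ i), Finset.card_univ, Fintype.card_fin,
        smul_eq_mul, Nat.add_sub_cancel]
    have h2 : (n + 1) * s = n * s + s := by ring
    omega
  have hdsum : ∑ i, (s - r i) ≤ n := by
    have h1 : ∑ i, (s - r i) + ∑ i, r i = (n + 1) * s := by
      rw [← Finset.sum_add_distrib]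
      have h2 : ∀ i ∈ (Finset.univ : Finset (Fin (n + 1))), s - r i + r i = s := fun i _ =>
        Nat.sub_add_cancel (hr i)
      rw [Finset.sum_congr rfl h2, Finset.sum_const, Finset.card_univ, Fintype.card_fin,
        smul_eq_mul]
    omega
  have hs : 0 < s := by
    rcases Nat.eq_zero_or_pos s with h | h
    · subst h
      have h1 : (W * L) ^ (t + 1) = ⊥ := by
        rw [← hb, Set.range_eq_empty, Submodule.span_empty]
      have h2 : (bW i₁ * bL j₁) ^ (t + 1) ∈ (W * L) ^ (t + 1) :=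
        Submodule.pow_mem_pow _ hH.mem _
      rw [h1, Submodule.mem_bot] at h2
      exact absurd h2 (pow_ne_zero _ hH.ne)
    · exact h
  refine peel hPD hvc hWL Q hQ hGA hs b hb.symm (fun r => hclκ _ (hQX r))
    (fun i => fld (κ := κ) u i) u (fun i j hij l => ?_) (fun i => s - r i) (fun i => ?_)
    (fun i => ?_) ?_ hchar g hg
  · exact IntermediateField.subset_adjoin _ _ ⟨i, hij, l, rfl⟩
  · change s ≤ r i + (s - r i)
    have := hr i
    omega
  · have := hd i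
    omega
  · rw [Finset.sum_add_distrib, Finset.sum_const, Finset.card_univ, Fintype.card_fin, smul_eq_mul,
      mul_one]
    have h1 : 2 * n + 1 ≤ (n + 1) * t := by
      have h2 : 1 * t ≤ (n + 1) * t := Nat.mul_le_mul_right t (by omega)
      omega
    omega

/-- ROW `Good.peel`. -/
theorem good_peel [IsAlgClosed k] {n : ℕ} (hn : 0 < n) {X : Set K} (hX : X.encard ≤ n)
    {L W : Submodule k K} (hL : IsModel L) (hW : IsModel W) {t : ℕ} (ht : 2 * n + 3 ≤ t)
    (hchar : ∀ l : ℕ, 0 < l → l < t → (l : k) ≠ 0)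
    {sW sL s : ℕ} (bW : Fin sW → K) (hbW : Submodule.span k (Set.range bW) = W)
    (hbWX : ∀ i, bW i ∈ TGCh.cl k₁ X) (bL : Fin sL → K)
    (hbL : Submodule.span k (Set.range bL) = L) (hbLX : ∀ i, bL i ∈ TGCh.cl k₁ X)
    (b : Fin s → K) (hb : Submodule.span k (Set.range b) = (W * L) ^ t)
    (q : K [⋀^Fin (n + 1)]→ₗ[k] K)
    (hq : ∀ (i : Fin (n + 1)) (g : Fin (n + 1) → K), ∃ (σ : Derivation k K K) (β : K), ∀ h : K,
      q (Function.update g i h) = σ h + β * h)
    (hqX : ∀ r : Fin (n + 1) → Fin s, q (fun j => b (r j)) ∈ TGCh.cl k₁ X)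
    {τ : K} (hτ0 : τ ≠ 0) (hτX : τ ∈ TGCh.cl k₁ X) (N : ℕ)
    (u : Fin (n + 1) → Fin s → k)
    (hu : AlgebraicIndependent k₁ (fun p : Fin (n + 1) × Fin s => u p.1 p.2)) :
    ∀ V : ValuationSubring K, ZDim k V → ∀ g : Fin (n + 1) → K,
      (∀ j, g j ∈ (hx V W * L) ^ t) → ∀ v : ValuationSubring K, Dv n (hx V W * L) v →
        v.valuation (q g) ≤ v.valuation (q fun j => ∑ a, u j a • b a) ∨
          (¬ Tp L N τ W v ∧ ∃ w ∈ hx V W, IsMin v W w) := by
  intro V hV g hg v hv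
  have hf : (fun j => ∑ a, u j a • b a) = fun j => ∑ a, algebraMap k K (u j a) * b a := by
    funext j
    exact Finset.sum_congr rfl fun a _ => Algebra.smul_def _ _
  rw [hf]
  have hWx : hx V W ≤ W := fun x hx => hx.1
  by_cases hmin : ∃ w ∈ hx V W, IsMin v W w
  · by_cases hT : Tp L N τ W v
    · left
      exact peel_case1 hn hX hL hW bW hbW hbWX bL hbL hbLX b hb q.toMultilinearMap hqX hτ0 hτX N u
        hu hWx hv hT hmin g (fun j => pow_le_pow_left' (mul_le_mul' hWx le_rfl) t (hg j))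
    · exact Or.inr ⟨hT, hmin⟩
  · left
    obtain ⟨t', rfl⟩ : ∃ t', t = t' + 1 := ⟨t - 1, by omega⟩
    exact peel_case2 hn hX hL hW (t := t') (by omega) (fun l h1 h2 => hchar l h1 (by omega))
      bW hbW hbWX bL hbL hbLX b hb q.toMultilinearMap (fun i g => hq i g) hqX u hu hV hv hmin g hg

end Pool.Agent.TG9
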