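import Pool.Agent.Lib.TG9_h65.PeelMain
import Pool.Agent.Lib.TG9_h96.Good

/-!
# TANK G, track BC9: `PeelStmt`
-/

set_option autoImplicit false

namespace Pool.Agent.TG9

open Pool.Agent.TG (Ov ZDim IsMin IsModel Bir ch chN)
open Pool.Agent.TG15 (Gt Tp hx smulK)
open Module

universe u

variable {k K : Type u} [Field k] [Field K] [Algebra k K]

theorem exists_basis_fam (P : Submodule k K) (hP : P.FG) :
    ∃ (s : ℕ) (b : Fin s → K), Submodule.span k (Set.range b) = P := by
  have : Module.Finite k P := Module.Finite.iff_fg.2 hP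
  let B := Module.finBasis k P
  refine ⟨_, fun i => (B i : K), ?_⟩
  have h1 : Set.range (fun i => (B i : K)) = (Submodule.subtype P) '' Set.range B := by
    rw [← Set.range_comp]
    rfl
  rw [h1, ← Submodule.map_span, B.span_eq, Submodule.map_top, Submodule.range_subtype]

theorem peelStmt (k K : Type u) [Field k] [Field K] [Algebra k K] (n p : ℕ) :
    PeelStmt k K n p := by
  classical
  intro hk hchar hp hfg htr hn L c τ c' q hd t ht htp m W hWL hW s b hlin hspan
  have hLne : L ≠ ⊥ := fun h => one_ne_zero ((Submodule.mem_bot k).1 (h ▸ hd.one))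
  have hLm : IsModel L := ⟨hd.fg, hLne⟩
  have hWm : IsModel W := isModel_of_le (hd.fg.pow m) hWL hW
  obtain ⟨X, hX⟩ := exists_isTranscendenceBasis k K
  have hXc : X.encard ≤ n := by
    rw [← Set.toENat_cardinalMk, hX.cardinalMk_eq_trdeg, htr]
    simp
  have halg : ∀ y : K, IsAlgebraic (Algebra.adjoin k X) y := by
    intro y
    have := hX.isAlgebraic
    rw [Subtype.range_coe] at this
    exact this.1 y
  obtain ⟨sW, bW, hbW⟩ := exists_basis_fam W hWm.fg
  obtain ⟨sL, bL, hbL⟩ := exists_basis_fam L hd.fg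
  obtain ⟨S₁, hS₁, hS₁F⟩ := cl_def_family bW (fun i => halg _)
  obtain ⟨S₂, hS₂, hS₂F⟩ := cl_def_family bL (fun i => halg _)
  obtain ⟨S₃, hS₃, hS₃F⟩ := cl_def_family (fun r : Fin (n + 1) → Fin s => q (fun j => b (r j)))
    (fun i => halg _)
  obtain ⟨S₄, hS₄, hS₄F⟩ := cl_def_family (fun _ : Unit => τ) (fun i => halg _)
  refine ⟨(S₁ ∪ S₂) ∪ (S₃ ∪ S₄), ((hS₁.union hS₂).union (hS₃.union hS₄)).countable,
    fun k₁ hk₁ u hu => ?_⟩
  have h1 : S₁ ⊆ k₁ := (Set.subset_union_left.trans Set.subset_union_left).trans hk₁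
  have h2 : S₂ ⊆ k₁ := (Set.subset_union_right.trans Set.subset_union_left).trans hk₁
  have h3 : S₃ ⊆ k₁ := (Set.subset_union_left.trans Set.subset_union_right).trans hk₁
  have h4 : S₄ ⊆ k₁ := (Set.subset_union_right.trans Set.subset_union_right).trans hk₁
  have hch : ∀ l : ℕ, 0 < l → l < t → (l : k) ≠ 0 := by
    intro l hl hlt h0
    rw [CharP.cast_eq_zero_iff k p] at h0
    exact absurd (Nat.le_of_dvd hl h0) (by omega)
  exact good_peel (k₁ := k₁) hn hXc hLm hWm ht hch bW hbW (hS₁F k₁ h1) bL hbL (hS₂F k₁ h2) b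
    hspan q (fun i g => hd.wr i g) (hS₃F k₁ h3) hd.τ_ne (hS₄F k₁ h4 ()) (c + m)
    (fun j a => u (j, a)) hu

end Pool.Agent.TG9
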